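import Pool.Agent.H89.FM.Targets1

/-!
# Targets of the chapter II: Epstein zeta functions of the sublattices, and the twisted second moment
-/

set_option autoImplicit false

open MeasureTheory Set Filter
open scoped Real Matrix MatrixGroups

namespace Pool.Agent.H89.FM

open Pool.Agent.H31.CN

/-! ### Definitions of the chapter -/

/-- the metric with complex parameters -/
noncomputable def qc (x y : ℂ) (v : ℤ × ℤ) : ℂ :=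
  (((v.1 : ℂ) + v.2 * x) ^ 2 + ((v.2 : ℂ) * y) ^ 2) / (2 * y)

/-- the unit of the rotation -/
noncomputable def tu (t : ℝ) : ℂ :=
  Complex.exp ((((if 0 ≤ t then 1 else -1) * (π / 2 - 1 / (1 + |t|)) : ℝ) : ℂ) * Complex.I)

/-- the integrand of the kernel -/
noncomputable def Ki (τ s r : ℂ) (u : ℝ) : ℂ :=
  (phc (τ * u * r) * (τ * u) ^ s + phc (τ⁻¹ * u * r) * (τ⁻¹ * u) ^ (1 - s)) / u

/-- the kernel with a complex argument -/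
noncomputable def Kc (τ s r : ℂ) : ℂ := ∫ u in Ioi (1 : ℝ), Ki τ s r u

/-- the kernel with a real argument is the kernel of `Defs` -/
theorem Kc_real (τ s : ℂ) (r : ℝ) : Kc τ s (r : ℂ) = Kk τ s r := rfl

open Classical in
/-- the rotated completed Epstein zeta function with complex parameters -/
noncomputable def Ec (s : ℂ) (n : ℕ) (L : Lat) (x y : ℂ) : ℂ :=
  ∑' v : ℤ × ℤ, if v ∈ L ∧ v ≠ 0 then Kc (tu s.im) s (qc x y v / n) else 0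

open Classical in
/-- the terms of the function `Psr` -/
noncomputable def pst (n : ℕ) (L : Lat) (x y : ℝ) (w : ℂ) (v : ℤ × ℤ) : ℂ :=
  if v ∈ L ∧ v ≠ 0 then phc (w * ((qz x y v / n : ℝ) : ℂ)) else 0

/-- the function with the inversion formula -/
noncomputable def Psr (n : ℕ) (L : Lat) (x y : ℝ) (w : ℂ) : ℂ := ∑' v : ℤ × ℤ, pst n L x y w v

open Classical in
/-- the theta function of a lattice -/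
noncomputable def ThL (n : ℕ) (L : Lat) (x y : ℝ) (w : ℂ) : ℂ :=
  ∑' v : ℤ × ℤ, if v ∈ L then Complex.exp (-(2 * π * w * ((qz x y v / n : ℝ) : ℂ))) else 0

/-- the region of the complex parameters -/
def Rg (ρ t : ℝ) (x y : ℂ) : Prop :=
  |x.re| < 10 * ρ ∧ ρ / 10 < y.re ∧ y.re < 10 * ρ ∧
    2000 * (1 + |t|) * |x.im| < ρ ∧ 2000 * (1 + |t|) * |y.im| < ρ

/-! ### The kernel -/

/-- (KCB) the bound of the kernel. -/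
def T_KCB : Prop :=
  ∃ (C : ℝ) (k : ℕ), 0 ≤ C ∧ ∀ (κ : ℝ) (s r : ℂ), 0 ≤ κ → κ ≤ 1 / 8 → |s.re - 1 / 2| ≤ κ →
    0 < r.re → 10 * (1 + |s.im|) * |r.im| ≤ r.re →
    IntegrableOn (Ki (tu s.im) s r) (Ioi 1) ∧
    ‖Kc (tu s.im) s r‖ ≤ C * (1 + |s.im|) ^ k * Real.exp (-(π / 2 * |s.im|)) *
      r.re ^ (-(1 / 2 + κ)) * Real.exp (-(r.re / (1 + |s.im|)))

/-- (KCD) the kernel is holomorphic. -/
def T_KCD : Prop :=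
  ∀ s r : ℂ, |s.re - 1 / 2| ≤ 1 / 8 → 0 < r.re → 10 * (1 + |s.im|) * |r.im| ≤ r.re →
    DifferentiableAt ℂ (fun r => Kc (tu s.im) s r) r

/-- (QCB) the metric with complex parameters. -/
def T_QCB : Prop :=
  ∃ c C : ℝ, 0 < c ∧ c ≤ 1 ∧ 1 ≤ C ∧ ∀ (ρ t : ℝ) (x y : ℂ) (v : ℤ × ℤ), 0 < ρ → Rg ρ t x y →
    v ≠ 0 → 0 < (qc x y v).re ∧ 10 * (1 + |t|) * |(qc x y v).im| ≤ (qc x y v).re ∧
      c * nr ρ v ≤ (qc x y v).re ∧ (qc x y v).re ≤ C * nr ρ v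

/-- (BSL) oriented bases of the lattices. -/
def T_BSL : Prop :=
  ∀ (n : ℕ) (L : Lat), 1 ≤ n → L ∈ Ls n → ∃ e₁ e₂ : ℤ × ℤ, det e₁ e₂ = n ∧
    ∀ v : ℤ × ℤ, v ∈ L ↔ ∃ a b : ℤ, v = a • e₁ + b • e₂

/-- (LCN) the number of the vectors of a lattice. -/
def T_LCN : Prop :=
  ∃ C : ℝ, 0 ≤ C ∧ ∀ (ρ R : ℝ) (n : ℕ) (L : Lat) (F : Finset (ℤ × ℤ)), 0 < ρ → 1 ≤ n →
    L ∈ Ls n → mn ρ L ≤ R → (∀ v ∈ F, v ∈ L ∧ v ≠ 0 ∧ nr ρ v ≤ R) →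
    (F.card : ℝ) ≤ C * (Real.sqrt (R / mn ρ L) + R / n)

open Classical in
/-- (LSM) a sum over the vectors of a lattice. -/
def T_LSM : Prop :=
  ∀ κ : ℝ, 0 < κ → κ ≤ 1 / 8 → ∃ C : ℝ, 0 ≤ C ∧ ∀ (ρ T : ℝ) (n : ℕ) (L : Lat), 0 < ρ → 1 ≤ T →
    1 ≤ n → L ∈ Ls n →
    Summable (fun v : ℤ × ℤ => if v ∈ L ∧ v ≠ 0 then
      (nr ρ v / n) ^ (-(1 / 2 + κ)) * Real.exp (-(nr ρ v / (n * T))) else 0) ∧
    ∑' v : ℤ × ℤ, (if v ∈ L ∧ v ≠ 0 then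
      (nr ρ v / n) ^ (-(1 / 2 + κ)) * Real.exp (-(nr ρ v / (n * T))) else 0) ≤
      C * T * (n / mn ρ L) ^ (1 / 2 + κ)

/-- (ECB) the bound of the Epstein zeta functions. -/
def T_ECB : Prop :=
  ∀ κ : ℝ, 0 < κ → κ ≤ 1 / 8 → ∃ (C : ℝ) (k : ℕ), 0 ≤ C ∧
    ∀ (ρ : ℝ) (n : ℕ) (L : Lat) (s x y : ℂ), 0 < ρ → 1 ≤ n → L ∈ Ls n →
    |s.re - 1 / 2| ≤ κ → Rg ρ s.im x y →
    ‖Ec s n L x y‖ ≤ C * (1 + |s.im|) ^ k * Real.exp (-(π / 2 * |s.im|)) *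
      (n / mn ρ L) ^ (1 / 2 + κ)

/-- (ECC) the Epstein zeta functions are continuous, and holomorphic in each variable. -/
def T_ECC : Prop :=
  ∀ (ρ : ℝ) (n : ℕ) (L : Lat) (s : ℂ), 0 < ρ → 1 ≤ n → L ∈ Ls n → |s.re - 1 / 2| ≤ 1 / 8 →
    ContinuousOn (fun p : ℂ × ℂ => Ec s n L p.1 p.2) {p | Rg ρ s.im p.1 p.2} ∧
    ∀ x y : ℂ, Rg ρ s.im x y → DifferentiableAt ℂ (fun x' => Ec s n L x' y) x ∧
      DifferentiableAt ℂ (fun y' => Ec s n L x y') y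

/-- (CAS) Cauchy's formula on a bidisc, for a sum of squares. -/
def T_CAS : Prop :=
  ∀ (S : Finset QF) (F : QF → ℂ → ℂ → ℂ) (U : Set (ℂ × ℂ)) (a b : ℂ) (R K : ℝ) (x y : QF → ℂ),
    0 < R → IsOpen U → Metric.closedBall a (2 * R) ×ˢ Metric.closedBall b (2 * R) ⊆ U →
    (∀ i ∈ S, ContinuousOn (fun p : ℂ × ℂ => F i p.1 p.2) U) →
    (∀ i ∈ S, ∀ p ∈ U, DifferentiableAt ℂ (fun x' => F i x' p.2) p.1 ∧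
      DifferentiableAt ℂ (fun y' => F i p.1 y') p.2) →
    (∀ i ∈ S, ‖x i - a‖ ≤ R ∧ ‖y i - b‖ ≤ R) →
    (∀ z w : ℂ, ‖z - a‖ = 2 * R → ‖w - b‖ = 2 * R → ∑ i ∈ S, ‖F i z w‖ ^ 2 ≤ K) →
    ∑ i ∈ S, ‖F i (x i) (y i)‖ ^ 2 ≤ 16 * K

/-! ### Theta functions -/

/-- (THL) the inversion of the theta function of a lattice. -/
def T_THL : Prop :=
  ∀ (n : ℕ) (L : Lat) (x y u : ℝ), 1 ≤ n → L ∈ Ls n → 0 < y → 0 < u →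
    Summable (fun v : ℤ × ℤ => Real.exp (-(2 * π * u * (qz x y v / n)))) ∧
    ThL n L x y ((u⁻¹ : ℝ) : ℂ) = u * ThL n L x y u

/-- (THH) the inversion in the half plane. -/
def T_THH : Prop :=
  ∀ (n : ℕ) (L : Lat) (x y : ℝ), 1 ≤ n → L ∈ Ls n → 0 < y →
    DifferentiableOn ℂ (ThL n L x y) {w | 0 < w.re} ∧
    ∀ w : ℂ, 0 < w.re → ThL n L x y w⁻¹ = w * ThL n L x y w

/-- (INV) the inversion of the function `Psr`. -/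
def T_INV : Prop :=
  ∀ (n : ℕ) (L : Lat) (x y : ℝ), 1 ≤ n → L ∈ Ls n → 0 < y →
    DifferentiableOn ℂ (Psr n L x y) {w | 0 < w.re} ∧
    ∀ w : ℂ, 0 < w.re → Psr n L x y w⁻¹ = w * Psr n L x y w

/-- (PSB) the decay of the function `Psr`. -/
def T_PSB : Prop :=
  ∀ (n : ℕ) (L : Lat) (x y K : ℝ), 1 ≤ n → L ∈ Ls n → 0 < y → 0 < K → ∃ C c : ℝ, 0 ≤ C ∧ 0 < c ∧
    ∀ w : ℂ, 1 ≤ ‖w‖ → ‖w‖ ≤ K * w.re → Summable (fun v => ‖pst n L x y w v‖) ∧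
      ∑' v : ℤ × ℤ, ‖pst n L x y w v‖ ≤ C * Real.exp (-(c * ‖w‖))

open Classical in
/-- (ROT) the Epstein zeta function does not depend on the rotation. -/
def T_ROT : Prop :=
  ∀ (n : ℕ) (L : Lat) (x y : ℝ) (s τ : ℂ), 1 ≤ n → L ∈ Ls n → 0 < y → ‖τ‖ = 1 → 0 < τ.re →
    HasSum (fun v : ℤ × ℤ => if v ∈ L ∧ v ≠ 0 then Kk τ s (qz x y v / n) else 0) (Ez s n L x y)

/-- (MEL) the Epstein zeta function as a Mellin transform. -/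
def T_MEL : Prop :=
  ∀ (n : ℕ) (L : Lat) (x y : ℝ) (s : ℂ), 1 ≤ n → L ∈ Ls n → 0 < y →
    IntegrableOn (fun u : ℝ => Psr n L x y u * (u : ℂ) ^ (s - 1)) (Ioi 0) ∧
    Ez s n L x y = ∫ u in Ioi (0 : ℝ), Psr n L x y u * (u : ℂ) ^ (s - 1)

open Classical in
/-- (CNL) the number of the lattices containing a vector. -/
def T_CNL : Prop :=
  ∀ (g : ℕ) (v : ℤ × ℤ), Squarefree g →
    ((Ls g).filter (fun L => v ∈ L)).card =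
      ∑ k ∈ g.divisors.filter (fun k : ℕ => (k : ℤ) ∣ v.1 ∧ (k : ℤ) ∣ v.2), k

open Classical in
/-- (HEC) the Hecke relation. -/
def T_HEC : Prop :=
  ∀ (n g : ℕ) (L' : Lat) (x y : ℝ) (s : ℂ), Squarefree (n * g) → L' ∈ Ls n → 0 < y →
    ∑ L ∈ (Ls (n * g)).filter (fun L => L ≤ L'), Ez s (n * g) L x y =
      (∑ k ∈ g.divisors, (k : ℂ) ^ (1 - s) * ((g / k : ℕ) : ℂ) ^ s) * Ez s n L' x y

open Classical in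
/-- (IND) the indicator function. -/
def T_IND : Prop :=
  ∀ (n : ℕ) (L : Lat) (Q : QF), Squarefree n →
    (if Dv n L Q then (1 : ℝ) else 0) = (1 / (n : ℝ)) * ∑ m ∈ n.divisors, Rn m L Q

/-- (EXP) the expansion of the twisted sums. -/
def T_EXP : Prop :=
  ∀ κ : ℝ, 0 < κ → κ ≤ 1 / 8 → ∃ C : ℝ, 0 ≤ C ∧ ∀ (s : ℂ) (N : ℕ) (α : ℕ → ℂ),
    |s.re - 1 / 2| ≤ κ → 1 ≤ N → (∀ n, ‖α n‖ ≤ 1) → ∃ β : ℕ → ℂ,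
      (∀ n ∈ Sq N, ‖β n‖ ≤ C * ((N : ℝ) / n) ^ (1 / 2 + 2 * κ)) ∧
      ∀ Q : QF, 0 < Q.1 → 0 < dsc Q → Bf s α N Q =
        ∑ n ∈ Sq N, ∑ L ∈ Ls n, β n / n * Ez s n L (zx Q) (zy Q) * (Rn n L Q : ℂ)

/-! ### Binary quadratic forms -/

/-- (QZV) the metric of a form. -/
def T_QZV : Prop :=
  ∀ (Q : QF) (v : ℤ × ℤ), 0 < Q.1 → 0 < dsc Q →
    qz (zx Q) (zy Q) v = (val Q v : ℝ) / Real.sqrt (dsc Q)

/-- (BIV) the twisted sums are invariant. -/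
def T_BIV : Prop :=
  ∀ (s : ℂ) (α : ℕ → ℂ) (N : ℕ) (Q : QF) (g : SL(2, ℤ)), 0 < Q.1 → 0 < dsc Q →
    0 < (act Q g).1 ∧ dsc (act Q g) = dsc Q ∧ Bf s α N (act Q g) = Bf s α N Q

/-- (RED) reduction of positive definite forms. -/
def T_RED : Prop :=
  ∀ Q : QF, 0 < Q.1 → 0 < dsc Q → ∃ g : SL(2, ℤ),
    |(act Q g).2.1| ≤ (act Q g).1 ∧ (act Q g).1 ≤ (act Q g).2.2

/-- (CEL) the twisted second moment over a cell. -/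
def T_CEL : Prop :=
  ∀ ε : ℝ, 0 < ε → ∃ κ : ℝ, 0 < κ ∧ κ ≤ 1 / 8 ∧ ∃ δ : ℝ, 0 < δ ∧ δ ≤ 1 / 8 ∧ δ ≤ ε / 10 ∧
    ∃ (C : ℝ) (k : ℕ), 0 ≤ C ∧
    ∀ (s : ℂ) (Y ρ c₁ c₂ : ℝ) (P : ℝ × ℝ × ℝ) (N : ℕ) (α : ℕ → ℂ) (S : Finset QF),
      |s.re - 1 / 2| ≤ κ → 1 ≤ Y → 1 ≤ ρ → ρ ≤ Y → 1 ≤ N → (N : ℝ) ≤ Y ^ (1 + δ) →
      (∀ n, ‖α n‖ ≤ 1) → Gd Y ρ P → |c₁| ≤ 4 * ρ → ρ / 5 ≤ c₂ → c₂ ≤ 2 * ρ →
      (∀ Q ∈ S, 0 < Q.1 ∧ 0 < dsc Q ∧ dq ρ P (rl Q) ≤ Y ^ (2 - 2 * δ) ∧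
        5000 * (1 + |s.im|) * |zx Q - c₁| ≤ ρ ∧ 5000 * (1 + |s.im|) * |zy Q - c₂| ≤ ρ) →
      ∑ Q ∈ S, ‖Bf s α N Q‖ ^ 2 ≤
        C * (1 + |s.im|) ^ k * Real.exp (-(π * |s.im|)) * Y ^ (3 + ε) * ρ * N

/-- (BOX) the twisted second moment over a box. -/
def T_BOX : Prop :=
  ∀ ε : ℝ, 0 < ε → ∃ κ : ℝ, 0 < κ ∧ κ ≤ 1 / 8 ∧ ∃ δ : ℝ, 0 < δ ∧ δ ≤ 1 / 8 ∧
    ∃ (C : ℝ) (k : ℕ), 0 ≤ C ∧
    ∀ (s : ℂ) (Y ρ : ℝ) (N : ℕ) (α : ℕ → ℂ) (S : Finset QF),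
      |s.re - 1 / 2| ≤ κ → 1 ≤ Y → 1 ≤ ρ → ρ ≤ Y → 1 ≤ N → (N : ℝ) ≤ Y ^ (1 + δ) →
      (∀ n, ‖α n‖ ≤ 1) →
      (∀ Q ∈ S, Y < 2 * ρ * Q.1 ∧ ρ * Q.1 ≤ Y ∧ |(Q.2.1 : ℝ)| ≤ 3 * Y ∧
        Y ^ 2 / 4 ≤ dsc Q ∧ (dsc Q : ℝ) ≤ Y ^ 2) →
      ∑ Q ∈ S, ‖Bf s α N Q‖ ^ 2 ≤
        C * (1 + |s.im|) ^ k * Real.exp (-(π * |s.im|)) * Y ^ (3 + ε) * ρ * N

end Pool.Agent.H89.FM
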