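import Pool.Agent.H89.FM.Defs

/-!
# Targets of the chapter I: the large sieve inequality over binary quadratic forms
-/

set_option autoImplicit false

open MeasureTheory Set Filter
open scoped Real Matrix MatrixGroups

namespace Pool.Agent.H89.FM

open Pool.Agent.H31.CN

/-! ### Definitions of the chapter -/

/-- the additive characters of the forms -/
noncomputable def ee (Q : QF) (ξ : ℝ × ℝ × ℝ) : ℂ :=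
  Complex.exp (2 * π * ((Q.1 * ξ.1 + Q.2.1 * ξ.2.1 + Q.2.2 * ξ.2.2 : ℝ) : ℂ) * Complex.I)

/-- the Gaussian weight of the forms near `P` -/
noncomputable def ga (W ρ : ℝ) (P : ℝ × ℝ × ℝ) (Q : QF) : ℝ :=
  Real.exp (-(π * dq ρ P (rl Q) / W ^ 2))

/-- the dual metric -/
noncomputable def dz (ρ : ℝ) (E : ℝ × ℝ × ℝ) : ℝ :=
  (E.1 / ρ) ^ 2 + E.2.1 ^ 2 + (ρ * E.2.2) ^ 2

/-- the tensor square of a vector -/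
def sq2 (w : ℤ × ℤ) : ℝ × ℝ × ℝ := ((w.1 : ℝ) ^ 2, (w.1 : ℝ) * w.2, (w.2 : ℝ) ^ 2)

/-- the dual Gaussian sum -/
noncomputable def ps (W ρ : ℝ) (ξ : ℝ × ℝ × ℝ) : ℝ :=
  ∑' Z : QF, Real.exp (-(π * W ^ 2 * dz ρ (rl Z + ξ)))

/-- the number of dual points near `- ξ` -/
noncomputable def nz (ρ η : ℝ) (ξ : ℝ × ℝ × ℝ) : ℕ :=
  Nat.card {Z : QF // dz ρ (rl Z + ξ) ≤ η ^ 2}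

/-- the lattice of the vectors parallel to `u` modulo `m` -/
def Lw (m : ℕ) (u : ℤ × ℤ) : Lat where
  carrier := {v | (m : ℤ) ∣ det u v}
  zero_mem' := by simp [det]
  add_mem' := by
    intro a b ha hb
    have h : det u (a + b) = det u a + det u b := by simp [det]; ring
    change (m : ℤ) ∣ det u (a + b)
    rw [h]; exact dvd_add ha hb
  neg_mem' := by
    intro a ha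
    have h : det u (-a) = - det u a := by simp [det]; ring
    change (m : ℤ) ∣ det u (-a)
    rw [h]; exact (dvd_neg).mpr ha

/-- the indices `((w, (f, g)), (m, j))` of the frequencies -/
abbrev Ix : Type := (ℤ × ℤ) × (ℕ × ℕ) × (ℕ × ℕ)

/-- the valid indices -/
structure Iv (ρ A : ℝ) (x : Ix) : Prop where
  prim : Int.gcd x.1.1 x.1.2 = 1
  sgn : 0 < x.1.2 ∨ x.1 = (1, 0)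
  g : x.2.1.2 < x.2.1.1 ^ 2
  j : x.2.2.2 < x.2.2.1
  cop : Nat.Coprime x.2.2.2 x.2.2.1
  sh : (x.2.1.1 : ℝ) * nr ρ x.1 ≤ 2 * x.2.2.1
  le : (x.2.1.1 : ℝ) * x.2.2.1 ≤ A

/-- the frequency of an index -/
noncomputable def lam (μ : ℕ × ℕ → ℝ × ℝ × ℝ) (x : Ix) : ℝ × ℝ × ℝ :=
  μ x.2.1 + ((x.2.2.2 : ℝ) / x.2.2.1) • sq2 x.1

/-- the weight of a dyadic block -/
noncomputable def hw (ρ η : ℝ) (a : (ℤ × ℤ) × ℕ × ℕ) : ℝ :=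
  (1 + η * 4 ^ a.2.2 / nr ρ a.1) / 2 ^ a.2.2

/-- the shape of a lattice: its shortest vector is `f • w` -/
structure Sh (ρ : ℝ) (n : ℕ) (L : Lat) (f m : ℕ) (L' : Lat) (w : ℤ × ℤ) : Prop where
  mul : n = f * m
  mem : L' ∈ Ls f
  inf : L = L' ⊓ Lw m w
  prim : Int.gcd w.1 w.2 = 1
  sgn : 0 < w.2 ∨ w = (1, 0)
  mn : (f : ℝ) ^ 2 * nr ρ w = mn ρ L
  sh : (f : ℝ) * nr ρ w ≤ 2 * m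

/-- the majorant of the part of a vector `w` -/
noncomputable def Tw (A : ℝ) (w : ℤ × ℤ) (Q : QF) : ℝ :=
  ∑ f ∈ Sq ⌊A⌋₊, ∑ m ∈ Sq ⌊A⌋₊, (1 / ((f : ℝ) ^ 2 * m)) * (∑ L ∈ Ls f, |Rn f L Q|) *
    |Rn m (Lw m w) Q|

/-! ### Poisson summation -/

/-- (PN1) Gaussian sums in dimension one. -/
def T_PN1 : Prop :=
  ∀ W p ξ : ℝ, 0 < W →
    Summable (fun a : ℤ => Real.exp (-(π * ((a : ℝ) - p) ^ 2 / W ^ 2))) ∧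
    Summable (fun z : ℤ => Real.exp (-(π * W ^ 2 * ((z : ℝ) + ξ) ^ 2))) ∧
    ‖∑' a : ℤ, (Real.exp (-(π * ((a : ℝ) - p) ^ 2 / W ^ 2)) : ℂ) *
        Complex.exp (2 * π * ((a * ξ : ℝ) : ℂ) * Complex.I)‖ ≤
      W * ∑' z : ℤ, Real.exp (-(π * W ^ 2 * ((z : ℝ) + ξ) ^ 2))

/-- (PN3) Gaussian sums over the forms. -/
def T_PN3 : Prop :=
  ∀ (W ρ : ℝ) (P ξ : ℝ × ℝ × ℝ), 0 < W → 0 < ρ →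
    Summable (fun Q : QF => ga W ρ P Q) ∧
    Summable (fun Z : QF => Real.exp (-(π * W ^ 2 * dz ρ (rl Z + ξ)))) ∧
    ‖∑' Q : QF, (ga W ρ P Q : ℂ) * ee Q ξ‖ ≤ W ^ 3 * ps W ρ ξ

/-- (TAL) truncation of the dual sum. -/
def T_TAL : Prop :=
  ∃ C : ℝ, ∀ (W ρ η : ℝ) (ξ : ℝ × ℝ × ℝ), 1 ≤ W → 1 ≤ ρ → 0 ≤ η →
    {Z : QF | dz ρ (rl Z + ξ) ≤ η ^ 2}.Finite ∧
    ps W ρ ξ ≤ nz ρ η ξ + C * ρ * Real.exp (-(π * W ^ 2 * η ^ 2 / 2))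

/-! ### Counting -/

/-- (CZ) the dual points near the plane of two vectors. -/
def T_CZ : Prop :=
  ∃ C : ℝ, ∀ (ρ η Λ : ℝ) (v w : ℤ × ℤ) (μ : ℝ × ℝ × ℝ) (F : Finset QF),
    0 < ρ → 0 < η → 1 ≤ Λ → Int.gcd v.1 v.2 = 1 → Int.gcd w.1 w.2 = 1 → det v w ≠ 0 →
    η * nr ρ v ≤ Λ → η * nr ρ w ≤ Λ →
    (∀ Z ∈ F, ∃ α β : ℝ, 0 ≤ α ∧ α < 1 ∧ 0 ≤ β ∧ β < 1 ∧
      dz ρ (rl Z + μ + α • sq2 v - β • sq2 w) ≤ η ^ 2) →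
    (F.card : ℝ) ≤ C * Λ ^ 3 * |(det v w : ℝ)|

/-- (CAB) the fractions for a given dual point. -/
def T_CAB : Prop :=
  ∃ C : ℝ, 0 ≤ C ∧ ∀ (ρ η A B : ℝ) (v w : ℤ × ℤ) (ν : ℝ × ℝ × ℝ)
    (F : Finset ((ℕ × ℕ) × (ℕ × ℕ))), 0 < ρ → 0 < η → 1 ≤ A → 1 ≤ B → det v w ≠ 0 →
    (∀ x ∈ F, (x.1.1 : ℝ) ≤ A ∧ x.1.2 < x.1.1 ∧ Nat.Coprime x.1.2 x.1.1 ∧
      (x.2.1 : ℝ) ≤ B ∧ x.2.2 < x.2.1 ∧ Nat.Coprime x.2.2 x.2.1 ∧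
      dz ρ (ν + ((x.1.2 : ℝ) / x.1.1) • sq2 v - ((x.2.2 : ℝ) / x.2.1) • sq2 w) ≤ η ^ 2) →
    (F.card : ℝ) ≤
      (1 + C * η * A ^ 2 * Real.sqrt (nr ρ w) / (|(det v w : ℝ)| * Real.sqrt (nr ρ v))) *
        (1 + C * η * B ^ 2 / nr ρ w)

/-- (CNT) the number of coincidences for two vectors. -/
def T_CNT : Prop :=
  ∃ C : ℝ, 0 ≤ C ∧ ∀ (ρ η Λ A B : ℝ) (v w : ℤ × ℤ) (μ : ℝ × ℝ × ℝ)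
    (F : Finset ((ℕ × ℕ) × (ℕ × ℕ) × QF)), 0 < ρ → 0 < η → 1 ≤ Λ → 1 ≤ A → 1 ≤ B →
    Int.gcd v.1 v.2 = 1 → Int.gcd w.1 w.2 = 1 → det v w ≠ 0 →
    η * nr ρ v ≤ Λ → η * nr ρ w ≤ Λ →
    (∀ x ∈ F, (x.1.1 : ℝ) ≤ A ∧ x.1.2 < x.1.1 ∧ Nat.Coprime x.1.2 x.1.1 ∧
      (x.2.1.1 : ℝ) ≤ B ∧ x.2.1.2 < x.2.1.1 ∧ Nat.Coprime x.2.1.2 x.2.1.1 ∧
      dz ρ (rl x.2.2 + μ + ((x.1.2 : ℝ) / x.1.1) • sq2 v -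
        ((x.2.1.2 : ℝ) / x.2.1.1) • sq2 w) ≤ η ^ 2) →
    (F.card : ℝ) ≤ C * Λ ^ 3 * Real.sqrt (nr ρ v * nr ρ w) *
      (1 + η * A ^ 2 / nr ρ v) * (1 + η * B ^ 2 / nr ρ w)

/-- (NW) the number of vectors. -/
def T_NW : Prop :=
  ∀ (ρ R : ℝ) (F : Finset (ℤ × ℤ)), 1 ≤ ρ → 0 ≤ R → (∀ w ∈ F, 0 < w.2 ∧ nr ρ w ≤ R) →
    (F.card : ℝ) ≤ 3 * R

/-- (WSM) the sum of the inverse norms. -/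
def T_WSM : Prop :=
  ∃ C : ℝ, 0 ≤ C ∧ ∀ (ρ R : ℝ) (F : Finset (ℤ × ℤ)), 1 ≤ ρ → 1 ≤ R →
    (∀ w ∈ F, 0 < w.2 ∧ nr ρ w ≤ R) → ∑ w ∈ F, 1 / nr ρ w ≤ C * (1 + Real.log R)

/-- (NI) the number of indices. -/
def T_NI : Prop :=
  ∃ C : ℝ, 0 ≤ C ∧ ∀ (ρ A : ℝ) (I : Finset Ix), 1 ≤ ρ → 1 ≤ A → (∀ x ∈ I, Iv ρ A x) →
    (I.card : ℝ) ≤ C * A ^ 6

/-- (GRP) grouping in blocks. -/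
def T_GRP : Prop :=
  ∃ C : ℝ, 0 ≤ C ∧ ∀ (ρ η Λ A M : ℝ) (I : Finset Ix) (c : Ix → ℝ) (μ : ℕ × ℕ → ℝ × ℝ × ℝ),
    1 ≤ ρ → 0 < η → 1 ≤ Λ → 1 ≤ A → 0 ≤ M → (∀ x ∈ I, Iv ρ A x) →
    (∀ x ∈ I, η * nr ρ x.1 ≤ Λ) → (∀ x ∈ I, 0 ≤ c x) →
    (∀ x ∈ I, c x ^ 2 * (x.2.1.1 : ℝ) ^ 4 * (x.2.2.1 : ℝ) ^ 2 * nr ρ x.1 ≤ M) →
    ∑ x ∈ I, ∑ y ∈ I.filter (fun y => y.1 ≠ x.1), c x * c y * nz ρ η (lam μ x - lam μ y) ≤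
      C * Λ ^ 3 * M *
        ∑ a ∈ I.image (fun x => (x.1, x.2.1.1, Nat.log 2 x.2.2.1)),
          ∑ b ∈ (I.image (fun x => (x.1, x.2.1.1, Nat.log 2 x.2.2.1))).filter
            (fun b => b.1 ≠ a.1), hw ρ η a * hw ρ η b

/-- (HG) the sum of the weights of the blocks, general vectors. -/
def T_HG : Prop :=
  ∃ C : ℝ, 0 ≤ C ∧ ∀ (ρ A η : ℝ) (T : Finset ((ℤ × ℤ) × ℕ × ℕ)), 1 ≤ ρ → 1 ≤ A → 0 ≤ η →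
    (∀ a ∈ T, 0 < a.1.2 ∧ 1 ≤ a.2.1 ∧ (a.2.1 : ℝ) * nr ρ a.1 ≤ 4 * 2 ^ a.2.2 ∧
      (a.2.1 : ℝ) * 2 ^ a.2.2 ≤ A) →
    ∑ a ∈ T, hw ρ η a ≤ C * (1 + η * A) * (1 + Real.log A) ^ 3

/-- (H1) the sum of the weights of the blocks, the vector `(1, 0)`. -/
def T_H1 : Prop :=
  ∃ C : ℝ, 0 ≤ C ∧ ∀ (ρ A η : ℝ) (T : Finset ((ℤ × ℤ) × ℕ × ℕ)), 1 ≤ ρ → 1 ≤ A → 0 ≤ η →
    (∀ a ∈ T, a.1 = (1, 0) ∧ 1 ≤ a.2.1 ∧ (a.2.1 : ℝ) * nr ρ a.1 ≤ 4 * 2 ^ a.2.2 ∧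
      (a.2.1 : ℝ) * 2 ^ a.2.2 ≤ A) →
    ∑ a ∈ T, hw ρ η a ≤ C * ρ * (1 + η * A) * (1 + Real.log A) ^ 3

/-- (OFF) the off-diagonal terms. -/
def T_OFF : Prop :=
  ∀ ε : ℝ, 0 < ε → ∃ d0 : ℝ, 0 < d0 ∧ ∀ δ : ℝ, 0 < δ → δ ≤ d0 → ∃ C : ℝ, 0 ≤ C ∧
    ∀ (Y ρ A M : ℝ) (P : ℝ × ℝ × ℝ) (I : Finset Ix) (c : Ix → ℂ) (μ : ℕ × ℕ → ℝ × ℝ × ℝ),
      1 ≤ Y → 1 ≤ ρ → ρ ≤ Y → 1 ≤ A → A ≤ Y ^ (1 + δ) → 0 ≤ M → (∀ x ∈ I, Iv ρ A x) →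
      (∀ x ∈ I, ‖c x‖ ^ 2 * (x.2.1.1 : ℝ) ^ 4 * (x.2.2.1 : ℝ) ^ 2 * nr ρ x.1 ≤ M) →
      ‖∑' Q : QF, (ga (Y ^ (1 - δ)) ρ P Q : ℂ) * ∑ x ∈ I, ∑ y ∈ I.filter (fun y => y.1 ≠ x.1),
        c x * (starRingEnd ℂ) (c y) * ee Q (lam μ x - lam μ y)‖ ≤ C * Y ^ (3 + ε) * ρ * M

/-! ### Lattices of squarefree index -/

/-- (FLS) there are finitely many sublattices of a given index. -/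
def T_FLS : Prop :=
  ∀ (n : ℕ) (L : Lat), 1 ≤ n → ((L ∈ Ls n ↔ L.index = n) ∧
    (L ∈ Ls n → ∀ v : ℤ × ℤ, (n : ℤ) • v ∈ L))

/-- (GEN) the sublattices of squarefree index. -/
def T_GEN : Prop :=
  (∀ (n : ℕ) (u : ℤ × ℤ), 1 ≤ n → Nat.Coprime (Int.gcd u.1 u.2) n → Lw n u ∈ Ls n) ∧
  (∀ (n : ℕ) (L : Lat), Squarefree n → L ∈ Ls n → ∃ u : ℤ × ℤ,
    Nat.Coprime (Int.gcd u.1 u.2) n ∧ L = Lw n u)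

/-- (CRT) sublattices of coprime indices. -/
def T_CRT : Prop :=
  ∀ f m : ℕ, 1 ≤ f → 1 ≤ m → Nat.Coprime f m →
    (∀ L₁ ∈ Ls f, ∀ L₂ ∈ Ls m, L₁ ⊓ L₂ ∈ Ls (f * m)) ∧
    (∀ L ∈ Ls (f * m), ∃ L₁ ∈ Ls f, ∃ L₂ ∈ Ls m, L = L₁ ⊓ L₂) ∧
    (∀ L₁ ∈ Ls f, ∀ L₂ ∈ Ls m, ∀ L₁' ∈ Ls f, ∀ L₂' ∈ Ls m, L₁ ⊓ L₂ = L₁' ⊓ L₂' →
      L₁ = L₁' ∧ L₂ = L₂')

/-- (RFM) the Ramanujan products are multiplicative. -/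
def T_RFM : Prop :=
  ∀ (f m : ℕ) (L₁ L₂ : Lat) (Q : QF), 1 ≤ f → 1 ≤ m → Nat.Coprime f m → L₁ ∈ Ls f →
    L₂ ∈ Ls m →
    (∀ p : ℕ, p.Prime → p ∣ f → (Dv p (L₁ ⊓ L₂) Q ↔ Dv p L₁ Q)) ∧
    Rn (f * m) (L₁ ⊓ L₂) Q = Rn f L₁ Q * Rn m L₂ Q

/-- (DVP) divisibility on the lattice of a vector. -/
def T_DVP : Prop :=
  ∀ (n p : ℕ) (u : ℤ × ℤ) (Q : QF), 1 ≤ n → p.Prime → p ∣ n → Nat.Coprime (Int.gcd u.1 u.2) n →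
    (Dv p (Lw n u) Q ↔ (p : ℤ) ∣ val Q u)

/-- (RAM) the expansion in additive characters. -/
def T_RAM : Prop :=
  ∀ (n : ℕ) (u : ℤ × ℤ) (Q : QF), Squarefree n → Nat.Coprime (Int.gcd u.1 u.2) n →
    (Rn n (Lw n u) Q : ℂ) = ∑ j ∈ (Finset.range n).filter (fun j => Nat.Coprime j n),
      ee Q (((j : ℝ) / n) • sq2 u)

/-- (MIN) the shortest vector of a lattice. -/
def T_MIN : Prop :=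
  ∀ (ρ : ℝ) (n : ℕ) (L : Lat), 0 < ρ → 1 ≤ n → L ∈ Ls n →
    ∃ v ∈ L, v ≠ 0 ∧ nr ρ v = mn ρ L ∧ (∀ u ∈ L, u ≠ 0 → mn ρ L ≤ nr ρ u) ∧ mn ρ L ≤ 2 * n

/-- (SHP) the shape of a lattice. -/
def T_SHP : Prop :=
  ∀ (ρ : ℝ) (n : ℕ) (L : Lat), 0 < ρ → Squarefree n → L ∈ Ls n →
    ∃ (f m : ℕ) (L' : Lat) (w : ℤ × ℤ), Sh ρ n L f m L' w

/-- (CLF) the number of the pairs of a lattice and a frequency. -/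
def T_CLF : Prop :=
  ∀ f : ℕ, Squarefree f → (Ls f).card * Nat.totient f ≤ f ^ 2

/-- (IDX) the expansion of the sum over the lattices in additive characters. -/
def T_IDX : Prop :=
  ∀ (ρ A M : ℝ) (c : ℕ → Lat → ℂ), 0 < ρ → 1 ≤ A → 0 ≤ M →
    (∀ n ∈ Sq ⌊A⌋₊, ∀ L ∈ Ls n, ‖c n L‖ ^ 2 * (n : ℝ) ^ 2 * mn ρ L ≤ M) →
    ∃ (I : Finset Ix) (c' : Ix → ℂ) (μ : ℕ × ℕ → ℝ × ℝ × ℝ),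
      (∀ x ∈ I, Iv ρ A x) ∧
      (∀ x ∈ I, ‖c' x‖ ^ 2 * (x.2.1.1 : ℝ) ^ 4 * (x.2.2.1 : ℝ) ^ 2 * nr ρ x.1 ≤ M) ∧
      (∀ Q : QF, ∑ n ∈ Sq ⌊A⌋₊, ∑ L ∈ Ls n, c n L * (Rn n L Q : ℂ) =
        ∑ x ∈ I, c' x * ee Q (lam μ x)) ∧
      ∀ (w : ℤ × ℤ) (Q : QF), ‖∑ x ∈ I.filter (fun x => x.1 = w), c' x * ee Q (lam μ x)‖ ≤
        Real.sqrt (M / nr ρ w) * Tw A w Q

/-! ### The diagonal terms -/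

/-- (LSP) the sublattices of prime index. -/
def T_LSP : Prop :=
  ∀ p : ℕ, p.Prime → (Ls p).card = p + 1 ∧ Lw p (1, 0) ∈ Ls p ∧
    (∀ x : ℕ, Lw p ((x : ℤ), 1) ∈ Ls p) ∧
    ∀ L ∈ Ls p, L = Lw p (1, 0) ∨ ∃ x : ℕ, x < p ∧ L = Lw p ((x : ℤ), 1)

/-- (RBP) prime indices. -/
def T_RBP : Prop :=
  ∀ (p : ℕ) (Q : QF), p.Prime →
    ∑ L ∈ Ls p, |Rn p L Q| ≤ if (p : ℤ) ∣ Q.1 then 3 * (p : ℝ) ^ 2 else 3 * (p : ℝ)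

/-- (RAB) the sum over the lattices of a given index. -/
def T_RAB : Prop :=
  ∀ (f : ℕ) (Q : QF), Squarefree f →
    ∑ L ∈ Ls f, |Rn f L Q| ≤ 3 ^ f.primeFactors.card * (f : ℝ) * Nat.gcd f Q.1.natAbs

/-- (RMW) the Ramanujan sums. -/
def T_RMW : Prop :=
  ∀ (m : ℕ) (w : ℤ × ℤ) (Q : QF), Squarefree m → Int.gcd w.1 w.2 = 1 →
    |Rn m (Lw m w) Q| ≤ (Nat.gcd m (val Q w).natAbs : ℝ)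

/-- (GCD) sums of greatest common divisors. -/
def T_GCD : Prop :=
  ∀ ε : ℝ, 0 < ε → ∃ C : ℝ, 0 ≤ C ∧ ∀ (A : ℝ) (a : ℕ), 1 ≤ A → 1 ≤ a →
    ∑ f ∈ Sq ⌊A⌋₊, 3 ^ f.primeFactors.card * (Nat.gcd f a : ℝ) / f ≤ C * (A * a) ^ ε

/-- (PTW) the pointwise bound. -/
def T_PTW : Prop :=
  ∀ ε : ℝ, 0 < ε → ∃ C : ℝ, 0 ≤ C ∧ ∀ (A : ℝ) (w : ℤ × ℤ) (Q : QF), 1 ≤ A →
    Int.gcd w.1 w.2 = 1 → Q.1 ≠ 0 → val Q w ≠ 0 →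
    Tw A w Q ≤ C * (A * |(Q.1 : ℝ)| * |(val Q w : ℝ)|) ^ ε

/-- (TRV) the trivial bound. -/
def T_TRV : Prop :=
  ∃ C : ℝ, 0 ≤ C ∧ ∀ (A : ℝ) (w : ℤ × ℤ) (Q : QF), 1 ≤ A → 0 ≤ Tw A w Q ∧ Tw A w Q ≤ C * A ^ 6

/-- (NPD) the forms which are not positive definite are far away. -/
def T_NPD : Prop :=
  ∀ (Y ρ : ℝ) (P : ℝ × ℝ × ℝ) (Q : QF), 1 ≤ Y → 0 < ρ → Gd Y ρ P → ¬ (0 < Q.1 ∧ 0 < dsc Q) →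
    Y ^ 2 / 10 ^ 12 ≤ dq ρ P (rl Q)

/-- (GMA) the mass of the Gaussian. -/
def T_GMA : Prop :=
  ∃ C : ℝ, 0 ≤ C ∧ ∀ (W ρ : ℝ) (P : ℝ × ℝ × ℝ), 1 ≤ W → 1 ≤ ρ →
    Summable (fun Q : QF => Real.exp (-(dq ρ P (rl Q) / W ^ 2))) ∧
    ∑' Q : QF, Real.exp (-(dq ρ P (rl Q) / W ^ 2)) ≤ C * W ^ 2 * (W + ρ)

/-- (DIA) the diagonal terms. -/
def T_DIA : Prop :=
  ∀ ε : ℝ, 0 < ε → ∃ d0 : ℝ, 0 < d0 ∧ ∀ δ : ℝ, 0 < δ → δ ≤ d0 → ∃ C : ℝ, 0 ≤ C ∧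
    ∀ (Y ρ A M : ℝ) (P : ℝ × ℝ × ℝ) (F : Finset (ℤ × ℤ)) (G : ℤ × ℤ → QF → ℂ),
      1 ≤ Y → 1 ≤ ρ → ρ ≤ Y → 1 ≤ A → A ≤ Y ^ (1 + δ) → 0 ≤ M → Gd Y ρ P →
      (∀ w ∈ F, Int.gcd w.1 w.2 = 1 ∧ (0 < w.2 ∨ w = (1, 0)) ∧ nr ρ w ≤ 2 * A) →
      (∀ w ∈ F, ∀ Q, ‖G w Q‖ ≤ Real.sqrt (M / nr ρ w) * Tw A w Q) →
      Summable (fun Q : QF => ga (Y ^ (1 - δ)) ρ P Q * ∑ w ∈ F, ‖G w Q‖ ^ 2) ∧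
      ∑' Q : QF, ga (Y ^ (1 - δ)) ρ P Q * ∑ w ∈ F, ‖G w Q‖ ^ 2 ≤ C * Y ^ (3 + ε) * ρ * M

/-- (LS) the large sieve inequality. -/
def T_LS : Prop :=
  ∀ ε : ℝ, 0 < ε → ∃ d0 : ℝ, 0 < d0 ∧ ∀ δ : ℝ, 0 < δ → δ ≤ d0 → ∃ C : ℝ, 0 ≤ C ∧
    ∀ (Y ρ A M : ℝ) (P : ℝ × ℝ × ℝ) (S : Finset QF) (c : ℕ → Lat → ℂ),
      1 ≤ Y → 1 ≤ ρ → ρ ≤ Y → 1 ≤ A → A ≤ Y ^ (1 + δ) → 0 ≤ M → Gd Y ρ P →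
      (∀ Q ∈ S, dq ρ P (rl Q) ≤ Y ^ (2 - 2 * δ)) →
      (∀ n ∈ Sq ⌊A⌋₊, ∀ L ∈ Ls n, ‖c n L‖ ^ 2 * (n : ℝ) ^ 2 * mn ρ L ≤ M) →
      ∑ Q ∈ S, ‖∑ n ∈ Sq ⌊A⌋₊, ∑ L ∈ Ls n, c n L * (Rn n L Q : ℂ)‖ ^ 2 ≤
        C * Y ^ (3 + ε) * ρ * M

end Pool.Agent.H89.FM
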