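import Pool.Agent.H89.FM.Targets1

/-!
# Row DIA: the diagonal terms
-/

set_option autoImplicit false

open MeasureTheory Set Filter
open scoped Real Matrix MatrixGroups

namespace Pool.Agent.H89.FM

open Pool.Agent.H31.CN

theorem dia_nr_pos {ρ : ℝ} (hρ : 0 < ρ) {w : ℤ × ℤ} (hw : w ≠ 0) : 0 < nr ρ w := by
  unfold nr
  by_cases h1 : w.1 = 0
  · have h2 : w.2 ≠ 0 := fun h2 => hw (Prod.ext h1 h2)
    have h3 : (0 : ℝ) < (w.2 : ℝ) ^ 2 := by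
      have : (w.2 : ℝ) ≠ 0 := by exact_mod_cast h2
      positivity
    positivity
  · have h3 : (0 : ℝ) < (w.1 : ℝ) ^ 2 := by
      have : (w.1 : ℝ) ≠ 0 := by exact_mod_cast h1
      positivity
    positivity

/-- powers against the exponential function -/
theorem dia_exp (δ : ℝ) (hδ : 0 < δ) : ∃ C : ℝ, 0 ≤ C ∧ ∀ Y : ℝ, 1 ≤ Y →
    Y ^ (24 : ℕ) * Real.exp (-(Y ^ (2 * δ) / 10 ^ 12)) ≤ C := by
  obtain ⟨k, hk⟩ := exists_nat_ge (24 / (2 * δ))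
  refine ⟨k.factorial * (10 ^ 12) ^ k, by positivity, fun Y hY => ?_⟩
  have hY0 : 0 < Y := by linarith
  set x : ℝ := Y ^ (2 * δ) / 10 ^ 12 with hx
  have hx0 : 0 < x := by positivity
  have h1 : x ^ k / k.factorial ≤ Real.exp x := Real.pow_div_factorial_le_exp x hx0.le k
  have h2 : Y ^ (24 : ℕ) ≤ (Y ^ (2 * δ)) ^ k := by
    rw [← Real.rpow_natCast, ← Real.rpow_natCast, ← Real.rpow_mul hY0.le]
    apply Real.rpow_le_rpow_of_exponent_le hY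
    rw [div_le_iff₀ (by positivity)] at hk
    push_cast
    linarith
  have h3 : Y ^ (24 : ℕ) ≤ (10 ^ 12) ^ k * x ^ k := by
    rw [← mul_pow]
    have : (10 : ℝ) ^ 12 * x = Y ^ (2 * δ) := by rw [hx]; field_simp
    rw [this]; exact h2
  rw [Real.exp_neg, ← div_eq_mul_inv, div_le_iff₀ (Real.exp_pos _)]
  have hf : (0 : ℝ) < k.factorial := by exact_mod_cast Nat.factorial_pos k
  rw [div_le_iff₀ hf] at h1
  calc Y ^ (24 : ℕ) ≤ (10 ^ 12) ^ k * x ^ k := h3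
    _ ≤ (10 ^ 12) ^ k * (Real.exp x * k.factorial) := by gcongr
    _ = _ := by ring

/-- the size of the coefficients -/
theorem dia_size {Y ρ : ℝ} {P : ℝ × ℝ × ℝ} {Q : QF} (hY : 1 ≤ Y) (hρ : 1 ≤ ρ) (hP : Gd Y ρ P)
    (w : ℤ × ℤ) (D : ℝ) (hD : dq ρ P (rl Q) = D) :
    |(Q.1 : ℝ)| ≤ 100 * Y + Real.sqrt D ∧
      |(val Q w : ℝ)| ≤ 2 * (100 * Y + Real.sqrt D) * nr ρ w := by
  have hρ0 : 0 < ρ := by linarith
  have hP3 : 0 < P.2.2 := by
    have h := hP.d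
    have h1 := hP.pos
    have h2 : 0 < 4 * P.1 * P.2.2 := by nlinarith [sq_nonneg P.2.1]
    have h3 : 0 < 4 * P.1 := by linarith
    exact (mul_pos_iff_of_pos_left h3).1 h2
  set r : ℝ := Real.sqrt D with hr
  have hD0 : 0 ≤ D := by rw [← hD]; unfold dq; positivity
  have hr2 : r ^ 2 = D := Real.sq_sqrt hD0
  have hr0 : 0 ≤ r := Real.sqrt_nonneg _
  have hD' : (ρ * (P.1 - Q.1)) ^ 2 + (P.2.1 - Q.2.1) ^ 2 + ((P.2.2 - Q.2.2) / ρ) ^ 2 = r ^ 2 := by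
    rw [hr2, ← hD]; rfl
  have h1 : |ρ * (P.1 - Q.1)| ≤ r := abs_le_of_sq_le_sq (by nlinarith [sq_nonneg (P.2.1 - Q.2.1), sq_nonneg ((P.2.2 - Q.2.2) / ρ)]) hr0
  have h2 : |P.2.1 - Q.2.1| ≤ r := abs_le_of_sq_le_sq (by nlinarith [sq_nonneg (ρ * (P.1 - Q.1)), sq_nonneg ((P.2.2 - Q.2.2) / ρ)]) hr0
  have h3 : |(P.2.2 - Q.2.2) / ρ| ≤ r := abs_le_of_sq_le_sq (by nlinarith [sq_nonneg (ρ * (P.1 - Q.1)), sq_nonneg (P.2.1 - Q.2.1)]) hr0
  have a1 : ρ * |(Q.1 : ℝ)| ≤ 100 * Y + r := by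
    have : |ρ * (Q.1 : ℝ)| ≤ |ρ * P.1| + |ρ * (P.1 - Q.1)| := by
      have e : ρ * (Q.1 : ℝ) = ρ * P.1 - ρ * (P.1 - Q.1) := by ring
      rw [e]; exact abs_sub _ _
    rw [abs_mul, abs_of_pos hρ0, abs_of_pos (mul_pos hρ0 hP.pos)] at this
    have := hP.a
    linarith
  have a2 : |(Q.2.1 : ℝ)| ≤ 100 * Y + r := by
    have : |(Q.2.1 : ℝ)| ≤ |P.2.1| + |P.2.1 - Q.2.1| := by
      have e : (Q.2.1 : ℝ) = P.2.1 - (P.2.1 - Q.2.1) := by ring
      rw [e]; exact (abs_sub _ _).trans (by ring_nf; rfl)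
    have := hP.b
    linarith
  have a3 : |(Q.2.2 : ℝ)| / ρ ≤ 100 * Y + r := by
    have : |(Q.2.2 : ℝ) / ρ| ≤ |P.2.2 / ρ| + |(P.2.2 - Q.2.2) / ρ| := by
      have e : (Q.2.2 : ℝ) / ρ = P.2.2 / ρ - (P.2.2 - Q.2.2) / ρ := by ring
      rw [e]; exact (abs_sub _ _).trans (by ring_nf; rfl)
    rw [abs_div, abs_of_pos hρ0, abs_of_pos (div_pos hP3 hρ0)] at this
    have h4 : P.2.2 / ρ ≤ 100 * Y := by
      rw [div_le_iff₀ hρ0]; exact hP.c
    linarith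
  refine ⟨le_trans (by nlinarith [abs_nonneg (Q.1 : ℝ)]) a1, ?_⟩
  have hval : (val Q w : ℝ) = Q.1 * (w.1 : ℝ) ^ 2 + Q.2.1 * w.1 * w.2 + Q.2.2 * (w.2 : ℝ) ^ 2 := by
    unfold val; push_cast; ring
  have hE : 0 ≤ 100 * Y + r := by linarith
  rw [hval]
  have b1 : |(Q.1 : ℝ) * (w.1 : ℝ) ^ 2| ≤ (100 * Y + r) * ((w.1 : ℝ) ^ 2 / ρ) := by
    rw [abs_mul, abs_of_nonneg (sq_nonneg (w.1 : ℝ))]
    calc |(Q.1 : ℝ)| * (w.1 : ℝ) ^ 2 = (ρ * |(Q.1 : ℝ)|) * ((w.1 : ℝ) ^ 2 / ρ) := by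
          field_simp
      _ ≤ _ := by gcongr
  have b3 : |(Q.2.2 : ℝ) * (w.2 : ℝ) ^ 2| ≤ (100 * Y + r) * (ρ * (w.2 : ℝ) ^ 2) := by
    rw [abs_mul, abs_of_nonneg (sq_nonneg (w.2 : ℝ))]
    calc |(Q.2.2 : ℝ)| * (w.2 : ℝ) ^ 2 = (|(Q.2.2 : ℝ)| / ρ) * (ρ * (w.2 : ℝ) ^ 2) := by
          field_simp
      _ ≤ _ := by gcongr
  have b2 : |(Q.2.1 : ℝ) * w.1 * w.2| ≤ (100 * Y + r) * nr ρ w := by
    have hw : |(w.1 : ℝ) * w.2| ≤ nr ρ w := by
      unfold nr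
      have hs : (0 : ℝ) < Real.sqrt ρ := Real.sqrt_pos.2 hρ0
      have hss : Real.sqrt ρ ^ 2 = ρ := Real.sq_sqrt hρ0.le
      have e1 : (w.1 : ℝ) ^ 2 / ρ = ((w.1 : ℝ) / Real.sqrt ρ) ^ 2 := by rw [div_pow, hss]
      have e2 : ρ * (w.2 : ℝ) ^ 2 = (Real.sqrt ρ * w.2) ^ 2 := by rw [mul_pow, hss]
      have e3 : (w.1 : ℝ) * w.2 = ((w.1 : ℝ) / Real.sqrt ρ) * (Real.sqrt ρ * w.2) := by
        field_simp
      rw [e1, e2, e3, abs_le]
      constructor <;> nlinarith [sq_nonneg ((w.1 : ℝ) / Real.sqrt ρ + Real.sqrt ρ * w.2),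
        sq_nonneg ((w.1 : ℝ) / Real.sqrt ρ - Real.sqrt ρ * w.2)]
    calc |(Q.2.1 : ℝ) * w.1 * w.2| = |(Q.2.1 : ℝ)| * |(w.1 : ℝ) * w.2| := by
          rw [mul_assoc, abs_mul]
      _ ≤ _ := by gcongr
  calc |(Q.1 : ℝ) * (w.1 : ℝ) ^ 2 + Q.2.1 * w.1 * w.2 + Q.2.2 * (w.2 : ℝ) ^ 2|
      ≤ |(Q.1 : ℝ) * (w.1 : ℝ) ^ 2| + |(Q.2.1 : ℝ) * w.1 * w.2| + |(Q.2.2 : ℝ) * (w.2 : ℝ) ^ 2| :=
        abs_add_three _ _ _
    _ ≤ (100 * Y + r) * ((w.1 : ℝ) ^ 2 / ρ) + (100 * Y + r) * nr ρ w +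
        (100 * Y + r) * (ρ * (w.2 : ℝ) ^ 2) := by linarith
    _ = 2 * (100 * Y + r) * nr ρ w := by unfold nr; ring

/-- the pointwise majorant -/
theorem dia_pt (hPTW : T_PTW) (hTRV : T_TRV) (hNPD : T_NPD) (e δ : ℝ) (he : 0 < e) (he2 : 2 * e ≤ 1)
    (hδ : 0 < δ) (hδ2 : δ ≤ 1 / 2) : ∃ K : ℝ, 0 ≤ K ∧
    ∀ (Y ρ A M : ℝ) (P : ℝ × ℝ × ℝ) (w : ℤ × ℤ) (Q : QF) (G : ℂ),
      1 ≤ Y → 1 ≤ ρ → 1 ≤ A → A ≤ Y ^ (1 + δ) → 0 ≤ M → Gd Y ρ P →
      Int.gcd w.1 w.2 = 1 → nr ρ w ≤ 2 * A → ‖G‖ ≤ Real.sqrt (M / nr ρ w) * Tw A w Q →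
      ga (Y ^ (1 - δ)) ρ P Q * ‖G‖ ^ 2 ≤ 1 / nr ρ w * (M * K * Y ^ (12 * e) *
        Real.exp (-(dq ρ P (rl Q) / (Y ^ (1 - δ)) ^ 2))) := by
  obtain ⟨C1, hC1, H1⟩ := hPTW e he
  obtain ⟨C2, hC2, H2⟩ := hTRV
  obtain ⟨C5, hC5, H5⟩ := dia_exp δ hδ
  refine ⟨C1 ^ 2 * (8 * 10 ^ 4) + C2 ^ 2 * C5, by positivity, ?_⟩
  intro Y ρ A M P w Q G hY hρ hA hAY hM hP hw hwA hG
  have hY0 : 0 < Y := by linarith
  have hρ0 : 0 < ρ := by linarith
  have hA0 : 0 < A := by linarith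
  have hw0 : w ≠ 0 := by
    rintro rfl
    simp at hw
  have hV : 0 < nr ρ w := dia_nr_pos hρ0 hw0
  set V := nr ρ w with hVd
  set W : ℝ := Y ^ (1 - δ) with hW
  have hW0 : 0 < W := Real.rpow_pos_of_pos hY0 _
  have hWY : W ≤ Y := by
    rw [hW]
    calc Y ^ (1 - δ) ≤ Y ^ (1 : ℝ) := Real.rpow_le_rpow_of_exponent_le hY (by linarith)
      _ = Y := Real.rpow_one Y
  have hW2 : W ^ 2 = Y ^ (2 - 2 * δ) := by
    rw [hW, ← Real.rpow_natCast, ← Real.rpow_mul hY0.le]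
    congr 1; push_cast; ring
  have hAY2 : A ≤ Y ^ 2 := by
    refine hAY.trans ?_
    rw [← Real.rpow_natCast]
    exact Real.rpow_le_rpow_of_exponent_le hY (by push_cast; linarith)
  set D := dq ρ P (rl Q) with hD
  have hD0 : 0 ≤ D := by rw [hD]; unfold dq; positivity
  set z : ℝ := D / W ^ 2 with hz
  have hz0 : 0 ≤ z := by positivity
  have hTw0 : 0 ≤ Tw A w Q := (H2 A w Q hA).1
  have hG2 : ‖G‖ ^ 2 ≤ M / V * Tw A w Q ^ 2 := by
    calc ‖G‖ ^ 2 ≤ (Real.sqrt (M / V) * Tw A w Q) ^ 2 := pow_le_pow_left₀ (norm_nonneg _) hG 2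
      _ = M / V * Tw A w Q ^ 2 := by rw [mul_pow, Real.sq_sqrt (by positivity)]
  have hY12 : 1 ≤ Y ^ (12 * e) := Real.one_le_rpow hY (by positivity)
  have hga : ga W ρ P Q ≤ Real.exp (-z) * Real.exp (-z) := by
    unfold ga
    rw [← Real.exp_add]
    apply Real.exp_le_exp.2
    have h3 : π * D / W ^ 2 = π * z := by rw [hz]; ring
    rw [h3]
    nlinarith [Real.pi_gt_three]
  have hga0 : 0 ≤ ga W ρ P Q := by unfold ga; positivity
  have key : ga W ρ P Q * Tw A w Q ^ 2 ≤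
      (C1 ^ 2 * (8 * 10 ^ 4) + C2 ^ 2 * C5) * Y ^ (12 * e) * Real.exp (-z) := by
    by_cases hpd : 0 < Q.1 ∧ 0 < dsc Q
    · -- positive definite
      have hQ1 : Q.1 ≠ 0 := hpd.1.ne'
      have hval : val Q w ≠ 0 := by
        have h1 : 4 * Q.1 * val Q w = (2 * Q.1 * w.1 + Q.2.1 * w.2) ^ 2 + dsc Q * w.2 ^ 2 := by
          unfold val dsc; ring
        intro h0
        rw [h0, mul_zero] at h1
        have h2 : dsc Q * w.2 ^ 2 = 0 := by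
          have := mul_nonneg hpd.2.le (sq_nonneg w.2)
          nlinarith [sq_nonneg (2 * Q.1 * w.1 + Q.2.1 * w.2)]
        have h3 : w.2 = 0 := by
          rcases mul_eq_zero.1 h2 with h | h
          · exact absurd h hpd.2.ne'
          · exact pow_eq_zero_iff (two_ne_zero) |>.1 h
        have h4 : (2 * Q.1 * w.1 + Q.2.1 * w.2) ^ 2 = 0 := by rw [h3] at h1 ⊢; linarith
        rw [h3, mul_zero, add_zero] at h4
        have h5 : 2 * Q.1 * w.1 = 0 := pow_eq_zero_iff (two_ne_zero) |>.1 h4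
        have h6 : w.1 = 0 := by
          rcases mul_eq_zero.1 h5 with h | h
          · exact absurd h (by omega)
          · exact h
        exact hw0 (Prod.ext h6 h3)
      have h1 := H1 A w Q hA hw hQ1 hval
      obtain ⟨s1, s2⟩ := dia_size hY hρ hP w D (Q := Q) rfl
      set r : ℝ := Real.sqrt D with hr
      have hr0 : 0 ≤ r := Real.sqrt_nonneg _
      have hr2 : r ^ 2 = D := Real.sq_sqrt hD0
      have hE : 0 ≤ 100 * Y + r := by linarith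
      set B : ℝ := A * |(Q.1 : ℝ)| * |(val Q w : ℝ)| with hB
      have hB0 : 0 ≤ B := by positivity
      have hzD : D ≤ Y ^ 2 * z := by
        rw [hz, mul_div_assoc', le_div_iff₀ (by positivity)]
        have : W ^ 2 ≤ Y ^ 2 := pow_le_pow_left₀ hW0.le hWY 2
        nlinarith
      have hBle : B ≤ 8 * 10 ^ 4 * Y ^ 6 * (1 + z) := by
        calc B ≤ A * (100 * Y + r) * (2 * (100 * Y + r) * (2 * A)) := by
              rw [hB]
              gcongr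
              exact s2.trans (by gcongr)
          _ = 4 * A ^ 2 * (100 * Y + r) ^ 2 := by ring
          _ ≤ 4 * A ^ 2 * (2 * (10 ^ 4 * Y ^ 2 + D)) := by
              gcongr
              nlinarith [sq_nonneg (100 * Y - r)]
          _ ≤ 4 * (Y ^ 2) ^ 2 * (2 * (10 ^ 4 * Y ^ 2 + Y ^ 2 * z)) := by gcongr
          _ ≤ 4 * (Y ^ 2) ^ 2 * (2 * (10 ^ 4 * Y ^ 2 + 10 ^ 4 * (Y ^ 2 * z))) := by
              have h7 : 0 ≤ Y ^ 2 * z := mul_nonneg (sq_nonneg Y) hz0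
              exact mul_le_mul_of_nonneg_left (by linarith) (by positivity)
          _ = 8 * 10 ^ 4 * Y ^ 6 * (1 + z) := by ring
      have hY6 : (Y ^ 6) ^ (2 * e) = Y ^ (12 * e) := by
        rw [← Real.rpow_natCast Y 6, ← Real.rpow_mul hY0.le]
        congr 1; push_cast; ring
      have h2e : (B ^ e) ^ 2 ≤ 8 * 10 ^ 4 * Y ^ (12 * e) * Real.exp z := by
        have e1 : (B ^ e) ^ 2 = B ^ (2 * e) := by
          rw [← Real.rpow_natCast, ← Real.rpow_mul hB0]; congr 1; push_cast; ring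
        rw [e1]
        calc B ^ (2 * e) ≤ (8 * 10 ^ 4 * Y ^ 6 * (1 + z)) ^ (2 * e) :=
              Real.rpow_le_rpow hB0 hBle (by positivity)
          _ = (8 * 10 ^ 4) ^ (2 * e) * (Y ^ 6) ^ (2 * e) * (1 + z) ^ (2 * e) := by
              rw [Real.mul_rpow (by positivity) (by positivity),
                Real.mul_rpow (by positivity) (by positivity)]
          _ ≤ (8 * 10 ^ 4) ^ (1 : ℝ) * (Y ^ 6) ^ (2 * e) * (1 + z) ^ (1 : ℝ) := by
              gcongr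
              · norm_num
              · linarith
          _ = 8 * 10 ^ 4 * Y ^ (12 * e) * (1 + z) := by
              rw [Real.rpow_one, Real.rpow_one, hY6]
          _ ≤ 8 * 10 ^ 4 * Y ^ (12 * e) * Real.exp z := by
              gcongr
              linarith [Real.add_one_le_exp z]
      have hexp : Real.exp (-z) * Real.exp z = 1 := by rw [← Real.exp_add]; simp
      calc ga W ρ P Q * Tw A w Q ^ 2 ≤ (Real.exp (-z) * Real.exp (-z)) * (C1 * B ^ e) ^ 2 := by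
            gcongr
        _ = C1 ^ 2 * (B ^ e) ^ 2 * (Real.exp (-z) * Real.exp (-z)) := by ring
        _ ≤ C1 ^ 2 * (8 * 10 ^ 4 * Y ^ (12 * e) * Real.exp z) * (Real.exp (-z) * Real.exp (-z)) := by
            gcongr
        _ = C1 ^ 2 * (8 * 10 ^ 4) * Y ^ (12 * e) * (Real.exp (-z) * Real.exp z) * Real.exp (-z) := by
            ring
        _ = (C1 ^ 2 * (8 * 10 ^ 4) + 0) * Y ^ (12 * e) * Real.exp (-z) := by rw [hexp]; ring
        _ ≤ _ := by gcongr; positivity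
    · -- not positive definite
      have h1 := hNPD Y ρ P Q hY hρ0 hP hpd
      have h2 := (H2 A w Q hA).2
      have hzl : Y ^ (2 * δ) / 10 ^ 12 ≤ z := by
        rw [hz, le_div_iff₀ (by positivity), hW2]
        have e1 : Y ^ (2 * δ) / 10 ^ 12 * Y ^ (2 - 2 * δ) = Y ^ 2 / 10 ^ 12 := by
          rw [div_mul_eq_mul_div, ← Real.rpow_add hY0]
          congr 1
          rw [← Real.rpow_natCast]; congr 1; push_cast; ring
        rw [e1]; exact h1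
      have h3 : Real.exp (-z) ≤ Real.exp (-(Y ^ (2 * δ) / 10 ^ 12)) := by
        apply Real.exp_le_exp.2; linarith
      have h4 := H5 Y hY
      calc ga W ρ P Q * Tw A w Q ^ 2 ≤ (Real.exp (-z) * Real.exp (-z)) * (C2 * A ^ 6) ^ 2 := by
            gcongr
        _ = C2 ^ 2 * (A ^ 12 * Real.exp (-z)) * Real.exp (-z) := by ring
        _ ≤ C2 ^ 2 * ((Y ^ 2) ^ 12 * Real.exp (-(Y ^ (2 * δ) / 10 ^ 12))) * Real.exp (-z) := by
            gcongr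
        _ = C2 ^ 2 * (Y ^ 24 * Real.exp (-(Y ^ (2 * δ) / 10 ^ 12))) * Real.exp (-z) := by
            rw [← pow_mul]
        _ ≤ C2 ^ 2 * C5 * Real.exp (-z) := by gcongr
        _ = (0 + C2 ^ 2 * C5) * 1 * Real.exp (-z) := by ring
        _ ≤ _ := by gcongr; positivity
  calc ga W ρ P Q * ‖G‖ ^ 2 ≤ ga W ρ P Q * (M / V * Tw A w Q ^ 2) := by gcongr
    _ = M / V * (ga W ρ P Q * Tw A w Q ^ 2) := by ring
    _ ≤ M / V * ((C1 ^ 2 * (8 * 10 ^ 4) + C2 ^ 2 * C5) * Y ^ (12 * e) * Real.exp (-z)) := by gcongr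
    _ = _ := by ring

theorem pf_DIA (hPTW : T_PTW) (hTRV : T_TRV) (hNPD : T_NPD) (hGMA : T_GMA) (hWSM : T_WSM) :
    T_DIA := by
  classical
  intro ε hε
  refine ⟨1 / 2, by norm_num, fun δ hδ hδ2 => ?_⟩
  set e : ℝ := min (ε / 13) (1 / 2) with he
  have he0 : 0 < e := by positivity
  have he1 : 13 * e ≤ ε := by have := min_le_left (ε / 13) (1 / 2 : ℝ); rw [← he] at this; linarith
  have he2 : 2 * e ≤ 1 := by have := min_le_right (ε / 13) (1 / 2 : ℝ); rw [← he] at this; linarith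
  obtain ⟨K, hK, HK⟩ := dia_pt hPTW hTRV hNPD e δ he0 he2 hδ hδ2
  obtain ⟨C3, hC3, H3⟩ := hGMA
  obtain ⟨C4, hC4, H4⟩ := hWSM
  refine ⟨(1 + C4 * (2 + 2 / e)) * K * (C3 * 2), by positivity, ?_⟩
  intro Y ρ A M P F G hY hρ hρY hA hAY hM hP hF hG
  have hY0 : 0 < Y := by linarith
  have hρ0 : 0 < ρ := by linarith
  set W : ℝ := Y ^ (1 - δ) with hW
  have hW1 : 1 ≤ W := Real.one_le_rpow hY (by linarith)
  have hWY : W ≤ Y := by
    rw [hW]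
    calc Y ^ (1 - δ) ≤ Y ^ (1 : ℝ) := Real.rpow_le_rpow_of_exponent_le hY (by linarith)
      _ = Y := Real.rpow_one Y
  obtain ⟨hs, hle⟩ := H3 W ρ P hW1 hρ
  set S : ℝ := ∑ w ∈ F, 1 / nr ρ w with hS
  have hS0 : 0 ≤ S := Finset.sum_nonneg fun w _ => by unfold nr; positivity
  have hga0 : ∀ Q, 0 ≤ ga W ρ P Q := fun Q => by unfold ga; positivity
  have hpt : ∀ Q, ga W ρ P Q * ∑ w ∈ F, ‖G w Q‖ ^ 2 ≤
      S * (M * K * Y ^ (12 * e)) * Real.exp (-(dq ρ P (rl Q) / W ^ 2)) := by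
    intro Q
    rw [Finset.mul_sum]
    calc ∑ w ∈ F, ga W ρ P Q * ‖G w Q‖ ^ 2 ≤ ∑ w ∈ F, 1 / nr ρ w * (M * K * Y ^ (12 * e) *
        Real.exp (-(dq ρ P (rl Q) / W ^ 2))) := by
          refine Finset.sum_le_sum fun w hw => ?_
          exact HK Y ρ A M P w Q (G w Q) hY hρ hA hAY hM hP (hF w hw).1 (hF w hw).2.2 (hG w hw Q)
      _ = _ := by rw [← Finset.sum_mul, hS]; ring
  have hsum : Summable (fun Q : QF => ga W ρ P Q * ∑ w ∈ F, ‖G w Q‖ ^ 2) := by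
    refine Summable.of_nonneg_of_le (fun Q => mul_nonneg (hga0 Q)
      (Finset.sum_nonneg fun w _ => sq_nonneg _)) hpt (hs.mul_left _)
  refine ⟨hsum, ?_⟩
  have hSle : S ≤ (1 + C4 * (2 + 2 / e)) * (ρ * Y ^ e) := by
    have hYe : 1 ≤ Y ^ e := Real.one_le_rpow hY he0.le
    have hlog0 : 0 ≤ Real.log Y := Real.log_nonneg hY
    have h1 : ∑ w ∈ F.filter (fun w => 0 < w.2), 1 / nr ρ w ≤ C4 * (1 + Real.log (2 * A)) :=
      H4 ρ (2 * A) _ hρ (by linarith) (fun w hw =>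
        ⟨(Finset.mem_filter.1 hw).2, (hF w (Finset.mem_filter.1 hw).1).2.2⟩)
    have h2 : ∑ w ∈ F.filter (fun w => ¬ 0 < w.2), 1 / nr ρ w ≤ ρ := by
      have hsub : F.filter (fun w => ¬ 0 < w.2) ⊆ {(1, 0)} := by
        intro w hw
        obtain ⟨hw1, hw2⟩ := Finset.mem_filter.1 hw
        rcases (hF w hw1).2.1 with h | h
        · exact absurd h hw2
        · rw [Finset.mem_singleton]; exact h
      calc ∑ w ∈ F.filter (fun w => ¬ 0 < w.2), 1 / nr ρ w ≤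
          ∑ w ∈ ({(1, 0)} : Finset (ℤ × ℤ)), 1 / nr ρ w :=
            Finset.sum_le_sum_of_subset_of_nonneg hsub fun w _ _ => by unfold nr; positivity
        _ = ρ := by
            rw [Finset.sum_singleton]; unfold nr; simp
    have h3 : Real.log (2 * A) ≤ 1 + 2 * (Y ^ e / e) := by
      have hA0 : 0 < A := by linarith
      rw [Real.log_mul (by norm_num) hA0.ne']
      have h4 : Real.log A ≤ 2 * Real.log Y := by
        have : Real.log A ≤ Real.log (Y ^ (1 + δ)) := Real.log_le_log hA0 hAY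
        rw [Real.log_rpow hY0] at this
        nlinarith
      have h5 : Real.log Y ≤ Y ^ e / e := Real.log_le_rpow_div hY0.le he0
      have h6 : Real.log 2 ≤ 1 := by
        have := Real.log_two_lt_d9; linarith
      linarith
    rw [hS, ← Finset.sum_filter_add_sum_filter_not F (fun w => 0 < w.2)]
    have hρY : 1 ≤ ρ * Y ^ e := by nlinarith
    have hb : Y ^ e ≤ ρ * Y ^ e := by nlinarith
    calc _ ≤ C4 * (1 + Real.log (2 * A)) + ρ := add_le_add h1 h2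
      _ ≤ C4 * (1 + (1 + 2 * (Y ^ e / e))) + ρ := by gcongr
      _ = C4 * (2 * 1 + 2 / e * Y ^ e) + ρ * 1 := by ring
      _ ≤ C4 * (2 * (ρ * Y ^ e) + 2 / e * (ρ * Y ^ e)) + ρ * Y ^ e := by gcongr
      _ = _ := by ring
  have hW3 : W ^ 2 * (W + ρ) ≤ 2 * Y ^ 3 := by
    calc W ^ 2 * (W + ρ) ≤ Y ^ 2 * (Y + Y) := by gcongr
      _ = 2 * Y ^ 3 := by ring
  calc ∑' Q : QF, ga W ρ P Q * ∑ w ∈ F, ‖G w Q‖ ^ 2
      ≤ ∑' Q : QF, S * (M * K * Y ^ (12 * e)) * Real.exp (-(dq ρ P (rl Q) / W ^ 2)) :=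
        hsum.tsum_le_tsum hpt (hs.mul_left _)
    _ = S * (M * K * Y ^ (12 * e)) * ∑' Q : QF, Real.exp (-(dq ρ P (rl Q) / W ^ 2)) := by
        rw [tsum_mul_left]
    _ ≤ S * (M * K * Y ^ (12 * e)) * (C3 * (2 * Y ^ 3)) := by
        gcongr
        calc _ ≤ C3 * W ^ 2 * (W + ρ) := hle
          _ = C3 * (W ^ 2 * (W + ρ)) := by ring
          _ ≤ C3 * (2 * Y ^ 3) := by gcongr
    _ ≤ ((1 + C4 * (2 + 2 / e)) * (ρ * Y ^ e)) * (M * K * Y ^ (12 * e)) * (C3 * (2 * Y ^ 3)) := by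
        gcongr
    _ = (1 + C4 * (2 + 2 / e)) * K * (C3 * 2) * (Y ^ e * Y ^ (12 * e) * Y ^ 3) * ρ * M := by ring
    _ = (1 + C4 * (2 + 2 / e)) * K * (C3 * 2) * Y ^ (3 + 13 * e) * ρ * M := by
        congr 3
        rw [← Real.rpow_natCast Y 3, ← Real.rpow_add hY0, ← Real.rpow_add hY0]
        congr 1; push_cast; ring
    _ ≤ (1 + C4 * (2 + 2 / e)) * K * (C3 * 2) * Y ^ (3 + ε) * ρ * M := by
        gcongr

end Pool.Agent.H89.FM
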