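import Pool.Agent.H89.FM.Targets1

/-!
# Row LS: the large sieve inequality, assembly
-/

set_option autoImplicit false

open MeasureTheory Set Filter
open scoped Real Matrix MatrixGroups

namespace Pool.Agent.H89.FM

open Pool.Agent.H31.CN

theorem norm_ee (Q : QF) (ξ : ℝ × ℝ × ℝ) : ‖ee Q ξ‖ = 1 := by
  unfold ee
  rw [Complex.norm_exp]
  have : (2 * (π : ℂ) * ((Q.1 * ξ.1 + Q.2.1 * ξ.2.1 + Q.2.2 * ξ.2.2 : ℝ) : ℂ) * Complex.I).re = 0 := by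
    have h : (2 * (π : ℂ) * ((Q.1 * ξ.1 + Q.2.1 * ξ.2.1 + Q.2.2 * ξ.2.2 : ℝ) : ℂ) * Complex.I) =
      ((2 * π * (Q.1 * ξ.1 + Q.2.1 * ξ.2.1 + Q.2.2 * ξ.2.2) : ℝ) : ℂ) * Complex.I := by
      push_cast; ring
    rw [h, Complex.re_ofReal_mul, Complex.I_re, mul_zero]
  rw [this, Real.exp_zero]

theorem ee_mul_conj (Q : QF) (a b : ℝ × ℝ × ℝ) :
    ee Q a * (starRingEnd ℂ) (ee Q b) = ee Q (a - b) := by
  unfold ee
  rw [← Complex.exp_conj, ← Complex.exp_add]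
  congr 1
  simp only [map_mul, Complex.conj_I, Complex.conj_ofReal, map_ofNat, Prod.fst_sub, Prod.snd_sub]
  push_cast
  ring

theorem nr_pos {ρ : ℝ} (hρ : 0 < ρ) {w : ℤ × ℤ} (hw : w ≠ 0) : 0 < nr ρ w := by
  unfold nr
  by_cases h1 : w.1 = 0
  · have h2 : w.2 ≠ 0 := fun h2 => hw (Prod.ext h1 h2)
    have h3 : (0 : ℝ) < (w.2 : ℝ) ^ 2 := by
      have : (w.2 : ℝ) ≠ 0 := by exact_mod_cast h2
      positivity
    positivity
  · have h3 : (0 : ℝ) < (w.1 : ℝ) ^ 2 := by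
      have : (w.1 : ℝ) ≠ 0 := by exact_mod_cast h1
      positivity
    positivity

/-- the diagonal and the off-diagonal terms -/
theorem expand (I : Finset Ix) (c : Ix → ℂ) (μ : ℕ × ℕ → ℝ × ℝ × ℝ) (Q : QF) :
    ((‖∑ x ∈ I, c x * ee Q (lam μ x)‖ ^ 2 : ℝ) : ℂ) =
      ((∑ w ∈ I.image (fun x => x.1),
        ‖∑ x ∈ I.filter (fun x => x.1 = w), c x * ee Q (lam μ x)‖ ^ 2 : ℝ) : ℂ) +
      ∑ x ∈ I, ∑ y ∈ I.filter (fun y => y.1 ≠ x.1),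
        c x * (starRingEnd ℂ) (c y) * ee Q (lam μ x - lam μ y) := by
  classical
  have hsq : ∀ J : Finset Ix, ((‖∑ x ∈ J, c x * ee Q (lam μ x)‖ ^ 2 : ℝ) : ℂ) =
      ∑ x ∈ J, ∑ y ∈ J, c x * (starRingEnd ℂ) (c y) * ee Q (lam μ x - lam μ y) := by
    intro J
    rw [← Complex.normSq_eq_norm_sq, Complex.normSq_eq_conj_mul_self, mul_comm, map_sum,
      Finset.sum_mul_sum]
    refine Finset.sum_congr rfl fun x _ => Finset.sum_congr rfl fun y _ => ?_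
    rw [map_mul, ← ee_mul_conj]
    ring
  rw [hsq I]
  have h1 : ∀ x ∈ I, ∑ y ∈ I, c x * (starRingEnd ℂ) (c y) * ee Q (lam μ x - lam μ y) =
      ∑ y ∈ I.filter (fun y => y.1 = x.1), c x * (starRingEnd ℂ) (c y) * ee Q (lam μ x - lam μ y) +
      ∑ y ∈ I.filter (fun y => y.1 ≠ x.1),
        c x * (starRingEnd ℂ) (c y) * ee Q (lam μ x - lam μ y) := fun x _ =>
    (Finset.sum_filter_add_sum_filter_not I (fun y => y.1 = x.1) _).symm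
  rw [Finset.sum_congr rfl h1, Finset.sum_add_distrib]
  congr 1
  push_cast
  rw [← Finset.sum_fiberwise_of_maps_to (g := fun x : Ix => x.1) (t := I.image (fun x => x.1))
    (fun x hx => Finset.mem_image_of_mem _ hx)]
  refine Finset.sum_congr rfl fun w _ => ?_
  have h2 := hsq (I.filter (fun x => x.1 = w))
  push_cast at h2
  rw [h2]
  refine Finset.sum_congr rfl fun x hx => ?_
  rw [(Finset.mem_filter.1 hx).2]

theorem pf_LS (hOFF : T_OFF) (hDIA : T_DIA) (hIDX : T_IDX) (hPN3 : T_PN3) : T_LS := by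
  classical
  intro ε hε
  obtain ⟨d1, hd1, H1⟩ := hOFF ε hε
  obtain ⟨d2, hd2, H2⟩ := hDIA ε hε
  refine ⟨min (min d1 d2) (1 / 2), by positivity, fun δ hδ hδd => ?_⟩
  have hδ1 : δ ≤ d1 := le_trans hδd (le_trans (min_le_left _ _) (min_le_left _ _))
  have hδ2 : δ ≤ d2 := le_trans hδd (le_trans (min_le_left _ _) (min_le_right _ _))
  have hδ3 : δ ≤ 1 / 2 := le_trans hδd (min_le_right _ _)
  obtain ⟨C1, hC1, G1⟩ := H1 δ hδ hδ1
  obtain ⟨C2, hC2, G2⟩ := H2 δ hδ hδ2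
  refine ⟨Real.exp π * (C1 + C2), by positivity, ?_⟩
  intro Y ρ A M P S c hY hρ hρY hA hAY hM hP hS hc
  have hρ0 : 0 < ρ := by linarith
  obtain ⟨I, c', μ, hI, hc', hexp, hdiag⟩ := hIDX ρ A M c hρ0 hA hM hc
  set W : ℝ := Y ^ (1 - δ) with hW
  have hY0 : 0 < Y := by linarith
  have hWpos : 0 < W := Real.rpow_pos_of_pos hY0 _
  have hW2 : W ^ 2 = Y ^ (2 - 2 * δ) := by
    rw [hW, ← Real.rpow_natCast, ← Real.rpow_mul hY0.le]
    congr 1; push_cast; ring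
  set F : Finset (ℤ × ℤ) := I.image (fun x => x.1) with hF
  set G : ℤ × ℤ → QF → ℂ := fun w Q => ∑ x ∈ I.filter (fun x => x.1 = w), c' x * ee Q (lam μ x)
    with hG
  have hFp : ∀ w ∈ F, Int.gcd w.1 w.2 = 1 ∧ (0 < w.2 ∨ w = (1, 0)) ∧ nr ρ w ≤ 2 * A := by
    intro w hw
    obtain ⟨x, hx, rfl⟩ := Finset.mem_image.1 hw
    have h := hI x hx
    refine ⟨h.prim, h.sgn, ?_⟩
    have hf : (1 : ℝ) ≤ (x.2.1.1 : ℝ) := by
      have h1 : x.2.1.1 ≠ 0 := by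
        intro h0
        have := h.g
        rw [h0] at this
        simp at this
      exact_mod_cast Nat.one_le_iff_ne_zero.2 h1
    have hnr : 0 ≤ nr ρ x.1 := by unfold nr; positivity
    have h1 : (x.2.1.1 : ℝ) ^ 2 * nr ρ x.1 ≤ 2 * A := by
      have h2 := h.sh
      have h3 := h.le
      calc (x.2.1.1 : ℝ) ^ 2 * nr ρ x.1 = x.2.1.1 * ((x.2.1.1 : ℝ) * nr ρ x.1) := by ring
        _ ≤ x.2.1.1 * (2 * x.2.2.1) := by gcongr
        _ = 2 * ((x.2.1.1 : ℝ) * x.2.2.1) := by ring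
        _ ≤ 2 * A := by gcongr
    calc nr ρ x.1 = 1 ^ 2 * nr ρ x.1 := by ring
      _ ≤ (x.2.1.1 : ℝ) ^ 2 * nr ρ x.1 := by gcongr
      _ ≤ 2 * A := h1
  obtain ⟨hsd, hdia⟩ := G2 Y ρ A M P F G hY hρ hρY hA hAY hM hP hFp (fun w _ Q => hdiag w Q)
  have hoff := G1 Y ρ A M P I c' μ hY hρ hρY hA hAY hM hI hc'
  -- total
  set T : QF → ℝ := fun Q => ‖∑ x ∈ I, c' x * ee Q (lam μ x)‖ ^ 2 with hT
  set O : QF → ℂ := fun Q => ∑ x ∈ I, ∑ y ∈ I.filter (fun y => y.1 ≠ x.1),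
        c' x * (starRingEnd ℂ) (c' y) * ee Q (lam μ x - lam μ y) with hO
  have hTO : ∀ Q, ((T Q : ℝ) : ℂ) = ((∑ w ∈ F, ‖G w Q‖ ^ 2 : ℝ) : ℂ) + O Q := fun Q =>
    expand I c' μ Q
  -- summability of the Gaussian weight
  have hga : Summable (fun Q : QF => ga W ρ P Q) := (hPN3 W ρ P (0, 0, 0) hWpos hρ0).1
  have hga0 : ∀ Q, 0 ≤ ga W ρ P Q := fun Q => by unfold ga; positivity
  set B : ℝ := ∑ x ∈ I, ‖c' x‖ with hB
  have hTB : ∀ Q, T Q ≤ B ^ 2 := by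
    intro Q
    have h1 : ‖∑ x ∈ I, c' x * ee Q (lam μ x)‖ ≤ B := by
      refine (norm_sum_le _ _).trans (Finset.sum_le_sum fun x _ => ?_)
      rw [norm_mul, norm_ee, mul_one]
    exact pow_le_pow_left₀ (norm_nonneg _) h1 2
  have hsT : Summable (fun Q => ga W ρ P Q * T Q) := by
    refine Summable.of_nonneg_of_le (fun Q => mul_nonneg (hga0 Q) (sq_nonneg _)) (fun Q => ?_)
      (hga.mul_right (B ^ 2))
    exact mul_le_mul_of_nonneg_left (hTB Q) (hga0 Q)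
  have hsTc : Summable (fun Q => ((ga W ρ P Q * T Q : ℝ) : ℂ)) := Complex.summable_ofReal.2 hsT
  have hsdc : Summable (fun Q => ((ga W ρ P Q * ∑ w ∈ F, ‖G w Q‖ ^ 2 : ℝ) : ℂ)) :=
    Complex.summable_ofReal.2 hsd
  have hOeq : ∀ Q, (ga W ρ P Q : ℂ) * O Q = ((ga W ρ P Q * T Q : ℝ) : ℂ) -
      ((ga W ρ P Q * ∑ w ∈ F, ‖G w Q‖ ^ 2 : ℝ) : ℂ) := by
    intro Q
    have h := hTO Q
    have h' : O Q = ((T Q : ℝ) : ℂ) - ((∑ w ∈ F, ‖G w Q‖ ^ 2 : ℝ) : ℂ) := by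
      rw [h]; ring
    rw [h']
    push_cast
    ring
  have hsum : ∑' Q, (ga W ρ P Q : ℂ) * O Q = ((∑' Q, ga W ρ P Q * T Q : ℝ) : ℂ) -
      ((∑' Q, ga W ρ P Q * ∑ w ∈ F, ‖G w Q‖ ^ 2 : ℝ) : ℂ) := by
    rw [tsum_congr hOeq, hsTc.tsum_sub hsdc, ← Complex.ofReal_tsum, ← Complex.ofReal_tsum]
  have htot : ∑' Q, ga W ρ P Q * T Q ≤ C2 * Y ^ (3 + ε) * ρ * M + C1 * Y ^ (3 + ε) * ρ * M := by
    have h1 : ‖((∑' Q, ga W ρ P Q * T Q : ℝ) : ℂ) -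
      ((∑' Q, ga W ρ P Q * ∑ w ∈ F, ‖G w Q‖ ^ 2 : ℝ) : ℂ)‖ ≤ C1 * Y ^ (3 + ε) * ρ * M := by
      rw [← hsum]; exact hoff
    rw [← Complex.ofReal_sub, Complex.norm_real, Real.norm_eq_abs] at h1
    have h2 := (abs_le.1 h1).2
    linarith
  have hS1 : ∀ Q ∈ S, T Q ≤ Real.exp π * (ga W ρ P Q * T Q) := by
    intro Q hQ
    have h1 : dq ρ P (rl Q) / W ^ 2 ≤ 1 := by
      rw [div_le_one (by positivity), hW2]
      exact hS Q hQ
    have h2 : (1 : ℝ) ≤ Real.exp π * ga W ρ P Q := by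
      unfold ga
      rw [← Real.exp_add]
      apply Real.one_le_exp
      have h3 : π * dq ρ P (rl Q) / W ^ 2 = π * (dq ρ P (rl Q) / W ^ 2) := by ring
      rw [h3]
      nlinarith [Real.pi_pos]
    calc T Q = 1 * T Q := by ring
      _ ≤ (Real.exp π * ga W ρ P Q) * T Q :=
        mul_le_mul_of_nonneg_right h2 (sq_nonneg _)
      _ = _ := by ring
  calc ∑ Q ∈ S, ‖∑ n ∈ Sq ⌊A⌋₊, ∑ L ∈ Ls n, c n L * (Rn n L Q : ℂ)‖ ^ 2 = ∑ Q ∈ S, T Q := by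
        refine Finset.sum_congr rfl fun Q _ => ?_
        rw [hexp Q]
    _ ≤ ∑ Q ∈ S, Real.exp π * (ga W ρ P Q * T Q) := Finset.sum_le_sum hS1
    _ = Real.exp π * ∑ Q ∈ S, ga W ρ P Q * T Q := by rw [Finset.mul_sum]
    _ ≤ Real.exp π * ∑' Q, ga W ρ P Q * T Q := by
        gcongr
        exact hsT.sum_le_tsum S (fun Q _ => mul_nonneg (hga0 Q) (sq_nonneg _))
    _ ≤ Real.exp π * (C2 * Y ^ (3 + ε) * ρ * M + C1 * Y ^ (3 + ε) * ρ * M) := by gcongr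
    _ = Real.exp π * (C1 + C2) * Y ^ (3 + ε) * ρ * M := by ring

end Pool.Agent.H89.FM
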