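import Pool.Agent.H34.FM.BIV
import Pool.Agent.H76.FM.BOX
import Pool.Agent.H17.FM.BSL
import Pool.Agent.H23.FM.CAB
import Pool.Agent.H12.FM.CAS
import Pool.Agent.H19.FM.CEL
import Pool.Agent.H48.FM.CLF
import Pool.Agent.H98.FM.CNL
import Pool.Agent.H23.FM.CNT
import Pool.Agent.H98.FM.CRT
import Pool.Agent.H23.FM.CZ
import Pool.Agent.H89.FM.DIA
import Pool.Agent.H85.FM.DVP
import Pool.Agent.H70.FM.ECB
import Pool.Agent.H45.FM.ECC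
import Pool.Agent.H19.FM.EXP
import Pool.Agent.H45.FM.EZA
import Pool.Agent.H51.FM.EZR
import Pool.Agent.H48.FM.FLS
import Pool.Agent.H55.FM.GCD
import Pool.Agent.H98.FM.GEN
import Pool.Agent.H79.FM.GMA
import Pool.Agent.H5.FM.GRP
import Pool.Agent.H51.FM.H1
import Pool.Agent.H95.FM.HEC
import Pool.Agent.H29.FM.HG
import Pool.Agent.H19.FM.IDX
import Pool.Agent.H51.FM.IND
import Pool.Agent.H17.FM.INV
import Pool.Agent.H73.FM.KCB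
import Pool.Agent.H73.FM.KCD
import Pool.Agent.H45.FM.LCN
import Pool.Agent.H89.FM.LS
import Pool.Agent.H98.FM.LSM
import Pool.Agent.H48.FM.LSP
import Pool.Agent.H45.FM.MEL
import Pool.Agent.H48.FM.MIN
import Pool.Agent.H51.FM.NI
import Pool.Agent.H55.FM.NPD
import Pool.Agent.H51.FM.NW
import Pool.Agent.H29.FM.OFF
import Pool.Agent.H79.FM.PN1
import Pool.Agent.H79.FM.PN3
import Pool.Agent.H83.FM.PSB
import Pool.Agent.H55.FM.PTW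
import Pool.Agent.H78.FM.QCB
import Pool.Agent.H51.FM.QZV
import Pool.Agent.H29.FM.RAB
import Pool.Agent.H78.FM.RAM
import Pool.Agent.H48.FM.RBP
import Pool.Agent.H51.FM.RED
import Pool.Agent.H29.FM.RFM
import Pool.Agent.H85.FM.RMW
import Pool.Agent.H13.FM.ROT
import Pool.Agent.H76.FM.SHP
import Pool.Agent.H79.FM.TAL
import Pool.Agent.H75.FM.THH
import Pool.Agent.H75.FM.THL
import Pool.Agent.H34.FM.TM
import Pool.Agent.H55.FM.TRV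
import Pool.Agent.H51.FM.WSM

/-!
# Chapters I and II, assembly
-/

set_option autoImplicit false

namespace Pool.Agent.H89.FM

theorem c_CAB : T_CAB := Pool.Agent.H23.FM.pf_CAB
theorem c_CAS : T_CAS := Pool.Agent.H12.FM.pf_CAS
theorem c_CZ : T_CZ := Pool.Agent.H23.FM.pf_CZ
theorem c_DVP : T_DVP := Pool.Agent.H85.FM.pf_DVP
theorem c_FLS : T_FLS := Pool.Agent.H48.FM.pf_FLS
theorem c_GCD : T_GCD := Pool.Agent.H55.FM.pf_GCD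
theorem c_GEN : T_GEN := Pool.Agent.H98.FM.pf_GEN c_FLS
theorem c_GMA : T_GMA := Pool.Agent.H79.FM.pf_GMA
theorem c_H1 : T_H1 := Pool.Agent.H51.FM.pf_H1
theorem c_IND : T_IND := Pool.Agent.H51.FM.pf_IND
theorem c_KCB : T_KCB := Pool.Agent.H73.FM.pf_KCB
theorem c_KCD : T_KCD := Pool.Agent.H73.FM.pf_KCD c_KCB
theorem c_LSP : T_LSP := Pool.Agent.H48.FM.LSP.pf_LSP c_FLS c_GEN
theorem c_MIN : T_MIN := Pool.Agent.H48.FM.MIN.pf_MIN c_FLS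
theorem c_NPD : T_NPD := Pool.Agent.H55.FM.pf_NPD
theorem c_NW : T_NW := Pool.Agent.H51.FM.pf_NW
theorem c_PN1 : T_PN1 := Pool.Agent.H79.FM.pf_PN1
theorem c_PN3 : T_PN3 := Pool.Agent.H79.FM.pf_PN3 c_PN1
theorem c_QCB : T_QCB := Pool.Agent.H78.FM.pf_QCB
theorem c_QZV : T_QZV := Pool.Agent.H51.FM.pf_QZV
theorem c_RAM : T_RAM := Pool.Agent.H78.FM.pf_RAM c_DVP
theorem c_RBP : T_RBP := Pool.Agent.H48.FM.RBP.pf_RBP c_LSP c_DVP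
theorem c_RED : T_RED := Pool.Agent.H51.FM.pf_RED
theorem c_RMW : T_RMW := Pool.Agent.H85.FM.pf_RMW c_DVP
theorem c_TAL : T_TAL := Pool.Agent.H79.FM.pf_TAL
theorem c_WSM : T_WSM := Pool.Agent.H51.FM.pf_WSM c_NW
theorem c_BIV : T_BIV := Pool.Agent.H34.FM.pf_BIV c_QZV c_FLS
theorem c_BSL : T_BSL := Pool.Agent.H17.FM.pf_BSL c_FLS
theorem c_CLF : T_CLF := Pool.Agent.H48.FM.CLF.pf_CLF c_FLS c_GEN
theorem c_CNT : T_CNT := Pool.Agent.H23.FM.pf_CNT c_CZ c_CAB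
theorem c_CRT : T_CRT := Pool.Agent.H98.FM.pf_CRT c_FLS
theorem c_GRP : T_GRP := Pool.Agent.H5.FM.pf_GRP c_CNT
theorem c_HG : T_HG := Pool.Agent.H29.FM.pf_HG c_NW c_WSM
theorem c_LCN : T_LCN := Pool.Agent.H45.FM.pf_LCN c_FLS c_MIN c_BSL
theorem c_LSM : T_LSM := Pool.Agent.H98.FM.pf_LSM c_FLS c_MIN c_LCN
theorem c_NI : T_NI := Pool.Agent.H51.FM.pf_NI c_NW
theorem c_OFF : T_OFF := Pool.Agent.H29.FM.pf_OFF c_PN3 c_TAL c_NI c_GRP c_HG c_H1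
theorem c_RFM : T_RFM := Pool.Agent.H29.FM.pf_RFM c_FLS c_CRT
theorem c_SHP : T_SHP := Pool.Agent.H76.FM.pf_SHP c_FLS c_GEN c_CRT c_MIN
theorem c_THL : T_THL := Pool.Agent.H75.FM.pf_THL c_FLS c_BSL
theorem c_TRV : T_TRV := Pool.Agent.H55.FM.pf_TRV c_CLF
theorem c_CNL : T_CNL := Pool.Agent.H98.FM.pf_CNL c_FLS c_GEN c_CRT c_LSP
theorem c_ECB : T_ECB := Pool.Agent.H70.FM.pf_ECB c_KCB c_QCB c_LSM
theorem c_ECC : T_ECC := Pool.Agent.H45.FM.pf_ECC c_KCB c_KCD c_QCB c_LSM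
theorem c_IDX : T_IDX := Pool.Agent.H19.FM.pf_IDX c_FLS c_GEN c_CRT c_RFM c_RAM c_SHP c_CLF
theorem c_PSB : T_PSB := Pool.Agent.H83.FM.pf_PSB c_THL c_FLS
theorem c_RAB : T_RAB := Pool.Agent.H29.FM.pf_RAB c_CRT c_RFM c_FLS c_RBP
theorem c_THH : T_THH := Pool.Agent.H75.FM.pf_THH c_THL c_FLS
theorem c_INV : T_INV := Pool.Agent.H17.FM.pf_INV c_THL c_THH
theorem c_MEL : T_MEL := Pool.Agent.H45.FM.pf_MEL c_INV c_PSB
theorem c_PTW : T_PTW := Pool.Agent.H55.FM.pf_PTW c_RAB c_RMW c_GCD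
theorem c_ROT : T_ROT := Pool.Agent.H13.FM.pf_ROT c_INV c_PSB
theorem c_DIA : T_DIA := Pool.Agent.H89.FM.pf_DIA c_PTW c_TRV c_NPD c_GMA c_WSM
theorem c_EZA : Pool.Agent.H61.FM.T_EZA := Pool.Agent.H45.FM.pf_EZA c_FLS c_MEL c_INV c_PSB
theorem c_EZR : Pool.Agent.H61.FM.T_EZR := Pool.Agent.H51.FM.pf_EZR c_FLS c_ROT
theorem c_HEC : T_HEC := Pool.Agent.H95.FM.pf_HEC c_FLS c_CRT c_CNL c_MEL c_PSB
theorem c_LS : T_LS := Pool.Agent.H89.FM.pf_LS c_OFF c_DIA c_IDX c_PN3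
theorem c_EXP : T_EXP := Pool.Agent.H19.FM.pf_EXP c_FLS c_CRT c_RFM c_HEC c_IND c_GCD
theorem c_CEL : T_CEL := Pool.Agent.H19.FM.pf_CEL c_LS c_ECB c_ECC c_CAS c_ROT c_EXP c_FLS c_MIN
theorem c_BOX : T_BOX := Pool.Agent.H76.FM.pf_BOX c_CEL
theorem c_TM : T_TM := Pool.Agent.H34.FM.pf_TM c_BOX c_RED c_BIV

end Pool.Agent.H89.FM
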