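import Pool.Agent.H61.FM.Targets

/-!
# The final statement from the targets of the chapter III
-/

set_option autoImplicit false

open NumberField
open scoped nonZeroDivisors

namespace Pool.Agent.H89.FM

open Pool.Agent.H31.CN

/-- `L` is the `L`-function of the class group character `ψ` of `K`: holomorphic away from `1`, and
given by the Dirichlet series over the nonzero integral ideals for `Re s > 1` -/
def IsLFunction (K : Type) [Field K] [NumberField K] (ψ : ClassGroup (𝓞 K) →* ℂˣ) (L : ℂ → ℂ) :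
    Prop :=
  DifferentiableOn ℂ L {1}ᶜ ∧ ∀ s : ℂ, 1 < s.re →
    HasSum (fun I : (Ideal (𝓞 K))⁰ => ((ψ (ClassGroup.mk0 I) : ℂˣ) : ℂ) *
      (Ideal.absNorm (I : Ideal (𝓞 K)) : ℂ) ^ (-s)) (L s)

/-- for every `D` in `S`, `D ≤ X`, `K D` is the imaginary quadratic field of discriminant `-D` and
`L D ψ` is the `L`-function of the class group character `ψ` of `K D` -/
def Family (X : ℝ) (S : Finset ℕ) (K : ℕ → Type) [∀ D, Field (K D)] [∀ D, NumberField (K D)]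
    (L : ∀ D, (ClassGroup (𝓞 (K D)) →* ℂˣ) → ℂ → ℂ) : Prop :=
  ∀ D ∈ S, (D : ℝ) ≤ X ∧ Module.finrank ℚ (K D) = 2 ∧ discr (K D) = -(D : ℤ) ∧
    ∀ ψ, IsLFunction (K D) ψ (L D ψ)

/-- the final statement -/
def T_FINAL : Prop :=
  (∀ (K : Type) [Field K] [NumberField K], Module.finrank ℚ K = 2 → discr K < 0 →
    ∀ ψ : ClassGroup (𝓞 K) →* ℂˣ, ∃ L : ℂ → ℂ, IsLFunction K ψ L) ∧
  ∀ ε : ℝ, 0 < ε → ∃ (C : ℝ) (A : ℕ), ∀ (X : ℝ) (S : Finset ℕ) (K : ℕ → Type)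
    [∀ D, Field (K D)] [∀ D, NumberField (K D)]
    (L : ∀ D, (ClassGroup (𝓞 (K D)) →* ℂˣ) → ℂ → ℂ), 1 ≤ X → Family X S K L →
    (∀ t : ∀ D, (ClassGroup (𝓞 (K D)) →* ℂˣ) → ℝ,
      ∑ D ∈ S, ∑ᶠ ψ : ClassGroup (𝓞 (K D)) →* ℂˣ,
        (‖L D ψ (1 / 2 + t D ψ * Complex.I)‖ / (1 + |t D ψ|) ^ A) ^ 4 ≤ C * X ^ (3 / 2 + ε)) ∧
    ∀ η : ℝ, 0 ≤ η → η ≤ 1 / 4 →
      (∀ D ∈ S, ∃ (ψ : ClassGroup (𝓞 (K D)) →* ℂˣ) (t : ℝ),
        (1 + |t|) ^ A * (D : ℝ) ^ (1 / 8 + η) < ‖L D ψ (1 / 2 + t * Complex.I)‖) →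
      (S.card : ℝ) ≤ C * X ^ (1 - 4 * η + ε)

theorem final (hEXL : Pool.Agent.H61.FM.T_EXL) (hFM2 : Pool.Agent.H61.FM.T_FM2)
    (hCOR : Pool.Agent.H61.FM.T_COR) : T_FINAL := by
  classical
  refine ⟨fun K _ _ hrk hd ψ => ?_, fun ε hε => ?_⟩
  · obtain ⟨D, hD⟩ : ∃ D : ℕ, discr K = -(D : ℤ) := ⟨(discr K).natAbs, by omega⟩
    obtain ⟨F, hF⟩ := hEXL K D ⟨by omega, hrk, hD⟩ ψ
    exact ⟨F, hF⟩
  · obtain ⟨C1, A1, hC1, H1⟩ := hFM2 ε hε
    obtain ⟨C2, A2, hC2, H2⟩ := hCOR ε hε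
    refine ⟨max C1 C2, max A1 A2, ?_⟩
    intro X S K _ _ L hX hS
    have hX0 : 0 < X := by linarith
    have hF : Pool.Agent.H61.FM.Fml K S L 0 X := by
      intro D hD
      obtain ⟨h1, h2, h3, h4⟩ := hS D hD
      have hD0 : 0 < D := by
        rcases Nat.eq_zero_or_pos D with h | h
        · exact absurd (by rw [h3, h]; simp) (NumberField.discr_ne_zero (K D))
        · exact h
      exact ⟨by positivity, h1, ⟨hD0, h2, h3⟩, h4⟩
    refine ⟨fun t => ?_, fun η hη hη1 hex => ?_⟩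
    · refine le_trans (Finset.sum_le_sum fun D hD => ?_) ((H1 X K S L t hX hF).trans ?_)
      · rw [finsum_eq_sum_of_fintype]
        refine Finset.sum_le_sum fun ψ _ => ?_
        have h1 : (1 : ℝ) ≤ 1 + |t D ψ| := by linarith [abs_nonneg (t D ψ)]
        gcongr
        exact le_max_left _ _
      · gcongr
        exact le_max_left _ _
    · refine (H2 X η K S L hX hη hη1 hF fun D hD => ?_).trans ?_
      · obtain ⟨ψ, t, h⟩ := hex D hD
        refine ⟨ψ, t, lt_of_le_of_lt ?_ h⟩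
        have h1 : (1 : ℝ) ≤ 1 + |t| := by linarith [abs_nonneg t]
        gcongr
        exact le_max_right _ _
      · gcongr
        exact le_max_right _ _

end Pool.Agent.H89.FM
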