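import Pool.Agent.H89.FM.Asm12
import Pool.Agent.H61.FM.Asm3
import Pool.Agent.H89.FM.Fin

/-!
# The fourth moment of the class group `L`-functions: everything together
-/

set_option autoImplicit false

namespace Pool.Agent.H89.FM

theorem all : T_FINAL := by
  obtain ⟨h1, _, h2, h3⟩ := Pool.Agent.H61.FM.part3 c_TM c_FLS c_EZA c_EZR
  exact final h1 h2 h3

end Pool.Agent.H89.FM
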