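import Pool.Agent.H31.CN.T5

/-!
# The fourth moment of the class group `L`-functions of all imaginary quadratic fields: definitions

Sublattices of `ℤ × ℤ` of squarefree index, the Ramanujan type products `Rn`, the completed Epstein zeta
functions `Ez` and the twisted sums `Bf` of a binary quadratic form. The discriminant of the form
`Q = (a, b, c)` is `- dsc Q`.
-/

set_option autoImplicit false

open MeasureTheory Set Filter
open scoped Real Matrix MatrixGroups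

namespace Pool.Agent.H89.FM

open Pool.Agent.H31.CN

/-! ### Lattices -/

/-- sublattices of `ℤ × ℤ` -/
abbrev Lat : Type := AddSubgroup (ℤ × ℤ)

/-- the determinant of two vectors -/
def det (u v : ℤ × ℤ) : ℤ := u.1 * v.2 - u.2 * v.1

open Classical in
/-- the sublattices of index `n` -/
noncomputable def Ls (n : ℕ) : Finset Lat :=
  if h : {L : Lat | L.index = n}.Finite then h.toFinset else ∅

/-- `p` divides the values of `Q` on `L` -/
def Dv (p : ℕ) (L : Lat) (Q : QF) : Prop := ∀ v ∈ L, (p : ℤ) ∣ val Q v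

open Classical in
/-- the product of the Ramanujan sums -/
noncomputable def Rn (n : ℕ) (L : Lat) (Q : QF) : ℝ :=
  ∏ p ∈ n.primeFactors, if Dv p L Q then (p : ℝ) - 1 else -1

/-- the squarefree numbers up to `N` -/
def Sq (N : ℕ) : Finset ℕ := (Finset.Icc 1 N).filter Squarefree

/-! ### Metrics -/

/-- the metric of the point `x + i y`, of covolume `1 / 2` -/
noncomputable def qz (x y : ℝ) (v : ℤ × ℤ) : ℝ :=
  (((v.1 : ℝ) + v.2 * x) ^ 2 + ((v.2 : ℝ) * y) ^ 2) / (2 * y)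

/-- the metric of the region with the parameter `ρ` -/
noncomputable def nr (ρ : ℝ) (v : ℤ × ℤ) : ℝ := (v.1 : ℝ) ^ 2 / ρ + ρ * (v.2 : ℝ) ^ 2

/-- the minimum of the metric on the nonzero vectors of a lattice -/
noncomputable def mn (ρ : ℝ) (L : Lat) : ℝ := sInf (nr ρ '' {v | v ∈ L ∧ v ≠ 0})

/-- the square of the distance of two real forms in the region with the parameter `ρ` -/
noncomputable def dq (ρ : ℝ) (P P' : ℝ × ℝ × ℝ) : ℝ :=
  (ρ * (P.1 - P'.1)) ^ 2 + (P.2.1 - P'.2.1) ^ 2 + ((P.2.2 - P'.2.2) / ρ) ^ 2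

/-- an integral form as a real form -/
def rl (Q : QF) : ℝ × ℝ × ℝ := ((Q.1 : ℝ), (Q.2.1 : ℝ), (Q.2.2 : ℝ))

/-- the positive real forms of the region with the parameter `ρ` -/
structure Gd (Y ρ : ℝ) (P : ℝ × ℝ × ℝ) : Prop where
  pos : 0 < P.1
  a : ρ * P.1 ≤ 100 * Y
  b : |P.2.1| ≤ 100 * Y
  c : P.2.2 ≤ 100 * Y * ρ
  d : Y ^ 2 / 100 ≤ 4 * P.1 * P.2.2 - P.2.1 ^ 2

/-! ### Epstein zeta functions -/

/-- the test function `θ (θ + 1) exp (- 2 π w)`, `θ = w d/dw` -/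
noncomputable def phc (w : ℂ) : ℂ :=
  (4 * π ^ 2 * w ^ 2 - 4 * π * w) * Complex.exp (-(2 * π * w))

/-- the kernel of the completed Epstein zeta function, with rotation by the unit `τ` -/
noncomputable def Kk (τ s : ℂ) (r : ℝ) : ℂ :=
  ∫ u in Ioi (1 : ℝ), (phc (τ * u * r) * (τ * u) ^ s + phc (τ⁻¹ * u * r) * (τ⁻¹ * u) ^ (1 - s)) / u

open Classical in
/-- the completed Epstein zeta function, times `s (s - 1)`, of the lattice `L` with the metric
`qz x y / n` -/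
noncomputable def Ez (s : ℂ) (n : ℕ) (L : Lat) (x y : ℝ) : ℂ :=
  ∑' v : ℤ × ℤ, if v ∈ L ∧ v ≠ 0 then Kk 1 s (qz x y v / n) else 0

/-- the real part of the root of the form `Q` -/
noncomputable def zx (Q : QF) : ℝ := (Q.2.1 : ℝ) / (2 * Q.1)

/-- the imaginary part of the root of the form `Q` -/
noncomputable def zy (Q : QF) : ℝ := Real.sqrt (dsc Q) / (2 * Q.1)

open Classical in
/-- the twisted sum of the form `Q` -/
noncomputable def Bf (s : ℂ) (α : ℕ → ℂ) (N : ℕ) (Q : QF) : ℂ :=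
  ∑ n ∈ Sq N, α n * ∑ L ∈ (Ls n).filter (fun L => Dv n L Q), Ez s n L (zx Q) (zy Q)

/-- the twisted second moment over the classes of forms: the interface between the parts 1, 2 and
the part 3 -/
def T_TM : Prop :=
  ∀ ε : ℝ, 0 < ε → ∃ κ : ℝ, 0 < κ ∧ κ ≤ 1 / 8 ∧ ∃ δ : ℝ, 0 < δ ∧ ∃ (C : ℝ) (k : ℕ),
    ∀ (s : ℂ) (Y : ℝ) (N : ℕ) (α : ℕ → ℂ) (S : Finset QF),
      |s.re - 1 / 2| ≤ κ → 1 ≤ Y → 1 ≤ N → (N : ℝ) ≤ Y ^ (1 + δ) → (∀ n, ‖α n‖ ≤ 1) →
      (∀ Q ∈ S, 0 < Q.1 ∧ Y ^ 2 / 4 ≤ dsc Q ∧ (dsc Q : ℝ) ≤ Y ^ 2) →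
      (∀ Q ∈ S, ∀ Q' ∈ S, ∀ g : SL(2, ℤ), act Q g = Q' → Q = Q') →
      ∑ Q ∈ S, ‖Bf s α N Q‖ ^ 2 ≤
        C * (1 + |s.im|) ^ k * Real.exp (-(π * |s.im|)) * Y ^ (3 + ε) * N

end Pool.Agent.H89.FM
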